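import Pool.Agent.Lib.MP_688fd0_co.LP.Ball
import Pool.Agent.Lib.MP_688fd0_co.LP.TopGroup

/-!
Vertex-transitive graphs (helper20): balls, and the isoperimetric inequalities of `LP/Ball.lean` transferred from
the Cayley graph of the automorphism group.  `Homog G` collects exactly the properties of balls that are used in
the proof of the long cycle theorem.
-/

set_option autoImplicit false
set_option linter.unusedSectionVars false

namespace Pool.Agent.Lib.MP_688fd0_co.LPV

open Classical Pointwise Finset

open Pool.Agent.Lib.MP_688fd0_co.LP (Symm cay cay_adj mem_ball card_ball)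

/-- outer vertex boundary -/
def nb {V : Type*} (G : SimpleGraph V) (W : Set V) : Set V := {y | y ∉ W ∧ ∃ u ∈ W, G.Adj u y}

/-- `y` can be reached from `x` in at most `r` steps -/
def reach {V : Type*} (G : SimpleGraph V) : ℕ → V → V → Prop
  | 0, x, y => x = y
  | r + 1, x, y => ∃ z, reach G r x z ∧ (z = y ∨ G.Adj z y)

section reach
variable {V : Type*} {G : SimpleGraph V}

lemma reach_add {r s : ℕ} {x y : V} : reach G (r + s) x y ↔ ∃ z, reach G r x z ∧ reach G s z y := by
  induction s generalizing y with
  | zero =>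
    constructor
    · intro h; exact ⟨y, h, rfl⟩
    · rintro ⟨z, h, h'⟩
      change z = y at h'
      subst h'; exact h
  | succ s ih =>
    constructor
    · rintro ⟨z, h1, h2⟩
      obtain ⟨w, h3, h4⟩ := ih.1 h1
      exact ⟨w, h3, z, h4, h2⟩
    · rintro ⟨w, h3, z, h4, h2⟩
      exact ⟨z, ih.2 ⟨w, h3, h4⟩, h2⟩

lemma reach_one {x y : V} : reach G 1 x y ↔ x = y ∨ G.Adj x y := by
  constructor
  · rintro ⟨z, h1, h2⟩
    change x = z at h1
    subst h1; exact h2
  · intro h; exact ⟨x, rfl, h⟩

lemma reach_symm {r : ℕ} {x y : V} (h : reach G r x y) : reach G r y x := by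
  induction r generalizing x y with
  | zero => exact Eq.symm h
  | succ r ih =>
    obtain ⟨z, h1, h2⟩ := h
    rw [Nat.add_comm]
    refine reach_add.2 ⟨z, reach_one.2 ?_, ih h1⟩
    rcases h2 with h2 | h2
    · exact Or.inl h2.symm
    · exact Or.inr h2.symm

lemma reach_map (φ : G ≃g G) {r : ℕ} {x y : V} (h : reach G r x y) : reach G r (φ x) (φ y) := by
  induction r generalizing y with
  | zero => exact congrArg φ h
  | succ r ih =>
    obtain ⟨z, h1, h2⟩ := h
    refine ⟨φ z, ih h1, ?_⟩
    rcases h2 with h2 | h2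
    · exact Or.inl (congrArg φ h2)
    · exact Or.inr (φ.map_adj_iff.2 h2)

lemma reach_map_iff (φ : G ≃g G) {r : ℕ} {x y : V} : reach G r (φ x) (φ y) ↔ reach G r x y := by
  constructor
  · intro h
    have := reach_map φ.symm h
    simpa using this
  · exact reach_map φ

lemma reach_mono {r s : ℕ} (h : r ≤ s) {x y : V} (hr : reach G r x y) : reach G s x y := by
  induction h with
  | refl => exact hr
  | step _ ih => exact ⟨y, ih, Or.inl rfl⟩

end reach

/-- The properties of balls used in the proof. -/
structure Homog {V : Type*} [Fintype V] (G : SimpleGraph V) where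
  ball : V → ℕ → Finset V
  bb : ℕ → ℕ
  card_ball : ∀ x r, (ball x r).card = bb r
  zero_iff : ∀ {x y}, y ∈ ball x 0 ↔ x = y
  one_iff : ∀ {x y}, y ∈ ball x 1 ↔ x = y ∨ G.Adj x y
  comm : ∀ {x y r}, y ∈ ball x r → x ∈ ball y r
  trans : ∀ {x y z r s}, y ∈ ball x r → z ∈ ball y s → z ∈ ball x (r + s)
  split : ∀ {x z r s}, z ∈ ball x (r + s) → ∃ y ∈ ball x r, z ∈ ball y s
  small_iso : ∀ (W : Finset V) (h : ℕ), 2 * W.card ≤ bb h →
    W.card ≤ 2 * h * (Finset.univ.filter (fun y => y ∈ nb G (W : Set V))).card
  rel_iso : ∀ (W : Set V) (z : V) (s : ℕ),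
    ((ball z s).filter (fun u => u ∈ W)).card * ((ball z s).filter (fun u => u ∉ W)).card ≤
      2 * s * bb (2 * s) * ((ball z (3 * s)).filter (fun y => y ∈ nb G W)).card
  glob_iso : ∀ (W : Finset V) (D : ℕ), (∀ x y, y ∈ ball x D) →
    W.card * (Fintype.card V - W.card) ≤
      Fintype.card V * D * (Finset.univ.filter (fun v => v ∉ W ∧ ∃ u ∈ W, G.Adj u v)).card

section lift

attribute [-instance] FunLike.toDecidableEq

variable {V : Type*} [Fintype V] {G : SimpleGraph V}

noncomputable instance : Fintype (G ≃g G) :=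
  Fintype.ofInjective (fun φ : G ≃g G => (φ : V → V)) DFunLike.coe_injective

/-- the ball of a graph -/
noncomputable def gball (G : SimpleGraph V) (x : V) (r : ℕ) : Finset V := univ.filter (fun y => reach G r x y)

lemma mem_gball {x y : V} {r : ℕ} : y ∈ gball G x r ↔ reach G r x y := by simp [gball]

lemma card_gball (htr : ∀ x y : V, ∃ φ : G ≃g G, φ x = y) (x y : V) (r : ℕ) :
    (gball G x r).card = (gball G y r).card := by
  obtain ⟨φ, rfl⟩ := htr x y
  apply Finset.card_bij (fun v _ => φ v)
  · intro v hv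
    rw [mem_gball] at *
    exact reach_map φ hv
  · intro a _ b _ h
    exact φ.injective h
  · intro v hv
    rw [mem_gball] at hv
    refine ⟨φ.symm v, ?_, by simp⟩
    rw [mem_gball]
    have := reach_map φ.symm hv
    simpa using this

/-- generating set of the automorphism group -/
noncomputable def tset (G : SimpleGraph V) (o : V) : Finset (G ≃g G) := univ.filter (fun g => reach G 1 o (g o))

lemma mem_tset {o : V} {g : G ≃g G} : g ∈ tset G o ↔ reach G 1 o (g o) := by simp [tset]

lemma inv_apply_eq (g : G ≃g G) (x : V) : g (g⁻¹ x) = x := by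
  have : (g * g⁻¹) x = x := by rw [mul_inv_cancel]; rfl
  exact this

lemma inv_apply_eq' (g : G ≃g G) (x : V) : g⁻¹ (g x) = x := by
  have : (g⁻¹ * g) x = x := by rw [inv_mul_cancel]; rfl
  exact this

lemma mul_app (g h : G ≃g G) (x : V) : (g * h) x = g (h x) := rfl

lemma tset_symm (o : V) : Symm (tset G o) := by
  constructor
  · rw [mem_tset]; exact reach_one.2 (Or.inl rfl)
  · intro g hg
    rw [mem_tset] at *
    have := reach_map g⁻¹ (reach_symm hg)
    rwa [inv_apply_eq'] at this

lemma mem_tset_pow (htr : ∀ x y : V, ∃ φ : G ≃g G, φ x = y) (o : V) {r : ℕ} (hr : 1 ≤ r) {g : G ≃g G} :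
    g ∈ (tset G o) ^ r ↔ reach G r o (g o) := by
  induction r, hr using Nat.le_induction generalizing g with
  | base => rw [pow_one, mem_tset]
  | succ r hr ih =>
    rw [pow_succ, Finset.mem_mul]
    constructor
    · rintro ⟨a, ha, t, ht, rfl⟩
      have h1 := ih.1 ha
      rw [mem_tset] at ht
      have h2 := reach_map a ht
      exact reach_add.2 ⟨a o, h1, h2⟩
    · intro h
      obtain ⟨z, h1, h2⟩ := reach_add.1 h
      obtain ⟨a, rfl⟩ := htr o z
      refine ⟨a, ih.2 h1, a⁻¹ * g, ?_, by group⟩
      rw [mem_tset, mul_app]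
      have := reach_map a⁻¹ h2
      rwa [inv_apply_eq'] at this

/-- the preimage of a set of vertices -/
noncomputable def lft (o : V) (W : Finset V) : Finset (G ≃g G) := univ.filter (fun g => g o ∈ W)

lemma card_fib (htr : ∀ x y : V, ∃ φ : G ≃g G, φ x = y) (o v : V) :
    ((univ : Finset (G ≃g G)).filter (fun g => g o = v)).card =
      ((univ : Finset (G ≃g G)).filter (fun g => g o = o)).card := by
  obtain ⟨a, rfl⟩ := htr o v
  symm
  apply Finset.card_bij (fun g _ => a * g)
  · intro g hg
    simp only [mem_filter, mem_univ, true_and] at *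
    rw [mul_app, hg]
  · intro g _ g' _ h
    simpa using h
  · intro g hg
    simp only [mem_filter, mem_univ, true_and] at hg
    refine ⟨a⁻¹ * g, ?_, by group⟩
    simp only [mem_filter, mem_univ, true_and]
    rw [mul_app, hg, inv_apply_eq']

lemma card_lft (htr : ∀ x y : V, ∃ φ : G ≃g G, φ x = y) (o : V) (W : Finset V) :
    (lft (G := G) o W).card = ((univ : Finset (G ≃g G)).filter (fun g => g o = o)).card * W.card := by
  have h := Finset.card_eq_sum_card_fiberwise (f := fun g : G ≃g G => g o) (s := lft (G := G) o W) (t := W)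
    (by intro g hg; simpa [lft] using hg)
  rw [h, Finset.sum_congr rfl (g := fun _ => ((univ : Finset (G ≃g G)).filter (fun g => g o = o)).card),
    Finset.sum_const, smul_eq_mul, Nat.mul_comm]
  intro v hv
  rw [← card_fib htr o v]
  congr 1
  ext g
  simp only [lft, mem_filter, mem_univ, true_and]
  constructor
  · exact fun h => h.2
  · intro h; exact ⟨by rw [h]; exact hv, h⟩

lemma kpos (o : V) : 0 < ((univ : Finset (G ≃g G)).filter (fun g => g o = o)).card :=
  Finset.card_pos.2 ⟨1, by simp only [mem_filter, mem_univ, true_and]; rfl⟩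

lemma cay_tset_adj (o : V) {g h : G ≃g G} :
    (cay (tset G o)).Adj g h ↔ g ≠ h ∧ (g o = h o ∨ G.Adj (g o) (h o)) := by
  rw [cay_adj (tset_symm o), mem_tset, ← reach_one]
  refine and_congr_right (fun _ => ?_)
  rw [mul_app, ← reach_map_iff g, inv_apply_eq]

lemma nb_lft (htr : ∀ x y : V, ∃ φ : G ≃g G, φ x = y) (o : V) (W : Set V) (g : G ≃g G) :
    g ∈ LP.nb (tset G o) {g : G ≃g G | g o ∈ W} ↔ g o ∈ nb G W := by
  constructor
  · rintro ⟨h1, u, hu, hadj⟩
    refine ⟨h1, u o, hu, ?_⟩
    rw [cay_tset_adj] at hadj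
    rcases hadj.2 with h | h
    · exact absurd (by rw [Set.mem_ofPred_eq, ← h]; exact hu) h1
    · exact h
  · rintro ⟨h1, u, hu, hadj⟩
    obtain ⟨a, rfl⟩ := htr o u
    refine ⟨h1, a, hu, ?_⟩
    rw [cay_tset_adj]
    refine ⟨?_, Or.inr hadj⟩
    rintro rfl
    exact h1 hu


lemma tset_pow_eq (htr : ∀ x y : V, ∃ φ : G ≃g G, φ x = y) (o : V) {r : ℕ} (hr : 1 ≤ r) :
    (tset G o) ^ r = lft o (gball G o r) := by
  ext g
  rw [mem_tset_pow htr o hr]
  simp [lft, mem_gball]

lemma ball_tset_eq (htr : ∀ x y : V, ∃ φ : G ≃g G, φ x = y) (o : V) {r : ℕ} (hr : 1 ≤ r) (a : G ≃g G) :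
    LP.ball (tset G o) a r = lft o (gball G (a o) r) := by
  ext g
  rw [mem_ball, mem_tset_pow htr o hr]
  simp only [lft, mem_filter, mem_univ, true_and, mem_gball]
  rw [mul_app, ← reach_map_iff a, inv_apply_eq]

/-- Every finite vertex-transitive graph has the properties used in the proof. -/
noncomputable def Homog.ofVT (htr : ∀ x y : V, ∃ φ : G ≃g G, φ x = y) (o : V) : Homog G where
  ball := gball G
  bb r := (gball G o r).card
  card_ball x r := card_gball htr x o r
  zero_iff := by intro x y; rw [mem_gball]; rfl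
  one_iff := mem_gball.trans reach_one
  comm h := mem_gball.2 (reach_symm (mem_gball.1 h))
  trans h1 h2 := mem_gball.2 (reach_add.2 ⟨_, mem_gball.1 h1, mem_gball.1 h2⟩)
  split h := by
    obtain ⟨z, h1, h2⟩ := reach_add.1 (mem_gball.1 h)
    exact ⟨z, mem_gball.2 h1, mem_gball.2 h2⟩
  small_iso := by
    intro W h hW
    rcases Nat.eq_zero_or_pos h with rfl | hh
    · have h1 : (gball G o 0).card = 1 := by
        rw [Finset.card_eq_one]
        refine ⟨o, ?_⟩
        ext y
        rw [mem_gball, Finset.mem_singleton]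
        exact eq_comm
      omega
    · have hk := kpos (G := G) o
      set κ := ((univ : Finset (G ≃g G)).filter (fun g => g o = o)).card with hκ
      have h1 := LP.small_iso (tset_symm (G := G) o) (lft o W) h (by
        rw [tset_pow_eq htr o hh, card_lft htr, card_lft htr, ← hκ]
        calc 2 * (κ * W.card) = κ * (2 * W.card) := by ring
          _ ≤ _ := Nat.mul_le_mul_left _ hW)
      have h2 : (Finset.univ.filter (fun y => y ∈ LP.nb (tset G o) ((lft o W : Finset (G ≃g G)) : Set (G ≃g G)))) =
          lft o (Finset.univ.filter (fun y => y ∈ nb G (W : Set V))) := by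
        have h3 : ((lft o W : Finset (G ≃g G)) : Set (G ≃g G)) = {g : G ≃g G | g o ∈ (W : Set V)} := by
          ext g; simp [lft]
        rw [h3]
        ext g
        simp only [mem_filter, mem_univ, true_and, lft]
        rw [nb_lft htr]
      rw [h2, card_lft htr, card_lft htr, ← hκ] at h1
      apply Nat.le_of_mul_le_mul_left _ hk
      calc _ ≤ _ := h1
        _ = _ := by ring
  rel_iso := by
    intro W z s
    rcases Nat.eq_zero_or_pos s with rfl | hs
    · have h1 : gball G z 0 = {z} := by
        ext y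
        rw [mem_gball, Finset.mem_singleton]
        exact eq_comm
      rw [h1]
      by_cases hz : z ∈ W
      · have : ({z} : Finset V).filter (fun u => u ∉ W) = ∅ := by
          ext u; simp only [mem_filter, mem_singleton, notMem_empty, iff_false]
          rintro ⟨rfl, h⟩; exact h hz
        rw [this]; simp
      · have : ({z} : Finset V).filter (fun u => u ∈ W) = ∅ := by
          ext u; simp only [mem_filter, mem_singleton, notMem_empty, iff_false]
          rintro ⟨rfl, h⟩; exact hz h
        rw [this]; simp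
    · have hk := kpos (G := G) o
      set κ := ((univ : Finset (G ≃g G)).filter (fun g => g o = o)).card with hκ
      obtain ⟨a, rfl⟩ := htr o z
      have h1 := LP.rel_iso (tset_symm (G := G) o) {g : G ≃g G | g o ∈ W} a s
      rw [ball_tset_eq htr o hs, ball_tset_eq htr o (by omega), tset_pow_eq htr o (by omega)] at h1
      have e1 : (lft (G := G) o (gball G (a o) s)).filter (fun u => u ∈ {g : G ≃g G | g o ∈ W}) =
          lft o ((gball G (a o) s).filter (fun u => u ∈ W)) := by
        ext g; simp [lft]
      have e2 : (lft (G := G) o (gball G (a o) s)).filter (fun u => u ∉ {g : G ≃g G | g o ∈ W}) =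
          lft o ((gball G (a o) s).filter (fun u => u ∉ W)) := by
        ext g; simp [lft]
      have e3 : (lft (G := G) o (gball G (a o) (3 * s))).filter
            (fun y => y ∈ LP.nb (tset G o) {g : G ≃g G | g o ∈ W}) =
          lft o ((gball G (a o) (3 * s)).filter (fun y => y ∈ nb G W)) := by
        ext g
        simp only [mem_filter, mem_univ, true_and, lft]
        rw [nb_lft htr]
      rw [e1, e2, e3, card_lft htr, card_lft htr, card_lft htr, card_lft htr, ← hκ] at h1
      apply Nat.le_of_mul_le_mul_left _ (Nat.mul_pos hk hk)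
      calc _ = _ := by ring
        _ ≤ _ := h1
        _ = _ := by ring
  glob_iso := by
    intro W D hD
    have hcard : Fintype.card V = (univ : Finset V).card := rfl
    rcases Nat.eq_zero_or_pos D with rfl | hD0
    · have h1 : Fintype.card V ≤ 1 := by
        rw [Fintype.card_le_one_iff]
        intro x y
        exact mem_gball.1 (hD x y)
      have h2 : W.card ≤ Fintype.card V := Finset.card_le_univ W
      have h3 : W.card = 0 ∨ Fintype.card V - W.card = 0 := by omega
      rcases h3 with h3 | h3 <;> rw [h3] <;> simp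
    · have hk := kpos (G := G) o
      set κ := ((univ : Finset (G ≃g G)).filter (fun g => g o = o)).card with hκ
      have hTD : (tset G o) ^ D = (univ : Finset (G ≃g G)) := by
        ext g
        simp only [mem_univ, iff_true]
        rw [mem_tset_pow htr o hD0]
        exact mem_gball.1 (hD o (g o))
      have h1 := LP.TopGroup.hiso (tset_symm (G := G) o) hTD (lft o W)
      have hG : Fintype.card (G ≃g G) = κ * Fintype.card V := by
        rw [← Finset.card_univ, ← Finset.card_univ, ← card_lft htr o univ]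
        congr 1
        ext g; simp [lft]
      have e3 : (univ.filter (fun v => v ∉ lft (G := G) o W ∧ ∃ u ∈ lft (G := G) o W, (cay (tset G o)).Adj u v)) =
          lft o (univ.filter (fun v => v ∉ W ∧ ∃ u ∈ W, G.Adj u v)) := by
        ext g
        have h3 : ((lft o W : Finset (G ≃g G)) : Set (G ≃g G)) = {g : G ≃g G | g o ∈ (W : Set V)} := by
          ext g; simp [lft]
        have h4 := nb_lft htr o (W : Set V) g
        rw [← h3] at h4
        simp only [mem_filter, mem_univ, true_and, lft]
        simpa [LP.nb, nb, lft] using h4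
      rw [e3, hG, card_lft htr, card_lft htr, ← hκ] at h1
      apply Nat.le_of_mul_le_mul_left _ (Nat.mul_pos hk hk)
      calc κ * κ * (W.card * (Fintype.card V - W.card)) = κ * W.card * (κ * Fintype.card V - κ * W.card) := by
            rw [← Nat.mul_sub]; ring
        _ ≤ _ := h1
        _ = _ := by ring

end lift

section basic

variable {V : Type*} [Fintype V] {G : SimpleGraph V} (H : Homog G)

/-- the ball -/
def ball (x : V) (r : ℕ) : Finset V := H.ball x r

/-- the size of a ball -/
def bb (r : ℕ) : ℕ := H.bb r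

lemma card_ball (x : V) (r : ℕ) : (ball H x r).card = bb H r := H.card_ball x r

variable {H}

lemma mem_zero {x y : V} : y ∈ ball H x 0 ↔ x = y := H.zero_iff

lemma ball_trans {x y z : V} {r s : ℕ} (h1 : y ∈ ball H x r) (h2 : z ∈ ball H y s) : z ∈ ball H x (r + s) :=
  H.trans h1 h2

variable (H)

lemma self_mem_ball (x : V) (r : ℕ) : x ∈ ball H x r := by
  induction r with
  | zero => exact mem_zero.2 rfl
  | succ r ih => exact ball_trans ih (H.one_iff.2 (Or.inl rfl))

lemma ball_mono (x : V) {r s : ℕ} (h : r ≤ s) : ball H x r ⊆ ball H x s := by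
  intro y hy
  obtain ⟨k, rfl⟩ := Nat.exists_eq_add_of_le h
  exact ball_trans hy (self_mem_ball H y k)

lemma b_mono [Nonempty V] {r s : ℕ} (h : r ≤ s) : bb H r ≤ bb H s := by
  obtain ⟨x⟩ := ‹Nonempty V›
  rw [← card_ball H x r, ← card_ball H x s]
  exact Finset.card_le_card (ball_mono H x h)

lemma b_pos [Nonempty V] (r : ℕ) : 1 ≤ bb H r := by
  obtain ⟨x⟩ := ‹Nonempty V›
  rw [← card_ball H x r]
  exact Finset.card_pos.2 ⟨x, self_mem_ball H x r⟩

lemma ball_symm {x y : V} {r : ℕ} (h : y ∈ ball H x r) : x ∈ ball H y r := H.comm h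

lemma ball_comm {x y : V} {r : ℕ} : y ∈ ball H x r ↔ x ∈ ball H y r := ⟨H.comm, H.comm⟩

lemma ball_trans' {x y z : V} {r s q : ℕ} (h1 : y ∈ ball H x r) (h2 : z ∈ ball H y s) (h : r + s ≤ q) :
    z ∈ ball H x q := ball_mono H x h (ball_trans h1 h2)

variable {H} in
lemma ball_split {x z : V} {r s : ℕ} (h : z ∈ ball H x (r + s)) : ∃ y ∈ ball H x r, z ∈ ball H y s := H.split h

lemma ball_one_iff {x y : V} : y ∈ ball H x 1 ↔ x = y ∨ G.Adj x y := H.one_iff

lemma adj_mem_ball {x y : V} (h : G.Adj x y) : y ∈ ball H x 1 := H.one_iff.2 (Or.inr h)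

lemma ball_adj {x y z : V} {r : ℕ} (h : y ∈ ball H x r) (h' : G.Adj y z) : z ∈ ball H x (r + 1) :=
  ball_trans h (adj_mem_ball H h')

theorem rel_iso (W : Set V) (z : V) (s : ℕ) :
    ((ball H z s).filter (fun u => u ∈ W)).card * ((ball H z s).filter (fun u => u ∉ W)).card ≤
      2 * s * bb H (2 * s) * ((ball H z (3 * s)).filter (fun y => y ∈ nb G W)).card := H.rel_iso W z s

theorem small_iso (W : Finset V) (h : ℕ) (hW : 2 * W.card ≤ bb H h) :
    W.card ≤ 2 * h * (Finset.univ.filter (fun y => y ∈ nb G (W : Set V))).card := H.small_iso W h hW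

theorem hiso {D : ℕ} (hD : ∀ x y, y ∈ ball H x D) (W : Finset V) :
    W.card * (Fintype.card V - W.card) ≤
      Fintype.card V * D * (Finset.univ.filter (fun v => v ∉ W ∧ ∃ u ∈ W, G.Adj u v)).card := H.glob_iso W D hD

end basic

end Pool.Agent.Lib.MP_688fd0_co.LPV
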