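import Pool.Agent.Lib.MP_688fd0_co.LP.VT.Homog

/-!
Version of `LP/TopGroup.lean` (helper43) for vertex-transitive graphs (helper20).
-/

set_option autoImplicit false
set_option linter.unusedSectionVars false

namespace Pool.Agent.Lib.MP_688fd0_co.LPV

open Classical Finset

open Pool.Agent.Lib.MP_688fd0_co.LP

namespace TopGroup

variable {V : Type*} [Fintype V] [Nonempty V] {G : SimpleGraph V}

/-- distance to a set -/
noncomputable def dst (H : Homog G) (Y : Set V) (v : V) : ℕ :=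
  sInf {r | ∃ y ∈ Y, v ∈ ball H y r}

lemma dst_le_iff (H : Homog G) {D : ℕ} (hD : ∀ x y : V, y ∈ ball H x D) {Y : Set V}
    (hY : Y.Nonempty) {v : V} {r : ℕ} : dst H Y v ≤ r ↔ ∃ y ∈ Y, v ∈ ball H y r := by
  constructor
  · intro h
    obtain ⟨y0, hy0⟩ := hY
    have hne : ({r | ∃ y ∈ Y, v ∈ ball H y r} : Set ℕ).Nonempty :=
      ⟨D, y0, hy0, hD _ _⟩
    obtain ⟨y, hy, hv⟩ := Nat.sInf_mem hne
    exact ⟨y, hy, ball_mono H y h hv⟩
  · intro h
    exact Nat.sInf_le h

lemma dst_adj (H : Homog G) {D : ℕ} (hD : ∀ x y : V, y ∈ ball H x D) {Y : Set V}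
    (hY : Y.Nonempty) {u v : V} (h : G.Adj u v) : dst H Y v ≤ dst H Y u + 1 := by
  rw [dst_le_iff H hD hY]
  obtain ⟨y, hy, hu⟩ := (dst_le_iff H hD hY).1 (le_refl (dst H Y u))
  exact ⟨y, hy, ball_adj H hu h⟩

lemma dst_mem (H : Homog G) {Y : Set V} {y : V} (hy : y ∈ Y) : dst H Y y = 0 := by
  have : dst H Y y ≤ 0 := Nat.sInf_le ⟨y, hy, self_mem_ball H y 0⟩
  omega

/-- vertices of a path at distance `s` on the path -/
lemma chain_ball (H : Homog G) {l : List V} (hl : l.IsChain G.Adj) (i s : ℕ)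
    (h : i + s < l.length) : l[i + s] ∈ ball H (l[i]'(by omega)) s := by
  induction s with
  | zero => exact self_mem_ball H _ 0
  | succ s ih =>
    have h1 := ih (by omega)
    have h2 := List.isChain_iff_getElem.1 hl (i + s) (by omega)
    exact ball_adj H h1 h2

/-- the `r0`-neighbourhood of a path with `L` vertices -/
lemma card_nhd (H : Homog G) {l : List V} (hl : l.IsChain G.Adj) (r0 : ℕ)
    (h0 : 1 ≤ r0) : (univ.filter (fun v => ∃ y ∈ l, v ∈ ball H y r0)).card ≤
      (l.length / r0 + 1) * (bb H (2 * r0)) := by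
  have hsub : univ.filter (fun v => ∃ y ∈ l, v ∈ ball H y r0) ⊆
      (Finset.range (l.length / r0 + 1)).biUnion
        (fun q => if h : r0 * q < l.length then ball H (l[r0 * q]) (2 * r0) else ∅) := by
    intro v hv
    simp only [mem_filter, mem_univ, true_and] at hv
    obtain ⟨y, hy, hv⟩ := hv
    obtain ⟨i, hi, rfl⟩ := List.getElem_of_mem hy
    rw [mem_biUnion]
    refine ⟨i / r0, ?_, ?_⟩
    · rw [mem_range]
      have := Nat.div_le_div_right (c := r0) hi.le
      omega
    · have h1 := Nat.div_add_mod i r0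
      have h2 := Nat.mod_lt i (show r0 > 0 by omega)
      rw [dif_pos (by omega)]
      have h3 := chain_ball H hl (r0 * (i / r0)) (i % r0) (by omega)
      have h4 : l[r0 * (i / r0) + i % r0] = l[i] := by
        congr 1
      rw [h4] at h3
      exact ball_trans' H h3 hv (by omega)
  refine (card_le_card hsub).trans (card_biUnion_le.trans ?_)
  calc _ ≤ ∑ _q ∈ Finset.range (l.length / r0 + 1), (bb H (2 * r0)) := by
        apply Finset.sum_le_sum
        intro q _
        split_ifs with h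
        · rw [card_ball]
        · simp
    _ = _ := by rw [Finset.sum_const, smul_eq_mul, card_range]

lemma card_nhd_zero (H : Homog G) (l : List V) :
    (univ.filter (fun v => ∃ y ∈ l, v ∈ ball H y 0)).card ≤ l.length := by
  have : univ.filter (fun v => ∃ y ∈ l, v ∈ ball H y 0) ⊆ l.toFinset := by
    intro v hv
    simp only [mem_filter, mem_univ, true_and] at hv
    obtain ⟨y, hy, hv⟩ := hv
    have : y = v := mem_zero.1 hv
    subst this
    simpa using hy
  exact (card_le_card this).trans (List.toFinset_card_le l)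

/-- hypothesis `hY` of `top_abs` -/
theorem hY (H : Homog G) {D : ℕ} (hD : ∀ x y : V, y ∈ ball H x D) (hD1 : 1 ≤ D) (r0 : ℕ)
    (hr0 : r0 ≤ D)
    (h1 : 1 ≤ r0 → ((8 * D + 8) / r0 + 2) * (bb H (2 * r0)) * (32 * D) <
      (r0 + 1) * Fintype.card V)
    (h0 : r0 = 0 → (8 * D + 8) * (32 * D) < Fintype.card V) (l : List V) (hl : IsP G l)
    (hlen : l.length ≤ 8 * D + 8) : ∃ φ : V → ℕ,
      (∀ u v, G.Adj u v → φ v ≤ φ u + 1) ∧ (∀ y ∈ l, φ y = 0) ∧
      (univ.filter (fun v => φ v ≤ r0)).card * (32 * D) < (r0 + 1) * Fintype.card V ∧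
      8 * (univ.filter (fun v => φ v ≤ r0)).card ≤ Fintype.card V := by
  obtain ⟨hne, hch, -⟩ := hl
  have hne' : ({x | x ∈ l} : Set V).Nonempty := by
    obtain ⟨x, hx⟩ := List.exists_mem_of_ne_nil l hne
    exact ⟨x, hx⟩
  have hcard : (univ.filter (fun v => dst H {x | x ∈ l} v ≤ r0)).card * (32 * D) <
      (r0 + 1) * Fintype.card V := by
    have e : univ.filter (fun v => dst H {x | x ∈ l} v ≤ r0) =
        univ.filter (fun v => ∃ y ∈ l, v ∈ ball H y r0) := by
      ext v
      simp only [mem_filter, mem_univ, true_and]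
      rw [dst_le_iff H hD hne']
      rfl
    rw [e]
    rcases Nat.eq_zero_or_pos r0 with hr | hr
    · subst hr
      have h2 := card_nhd_zero H l
      have h3 := h0 rfl
      have h4 : (univ.filter (fun v => ∃ y ∈ l, v ∈ ball H y 0)).card * (32 * D) ≤
          (8 * D + 8) * (32 * D) := Nat.mul_le_mul_right _ (h2.trans hlen)
      omega
    · have h2 := card_nhd H hch r0 hr
      have h3 := h1 hr
      have h4 : l.length / r0 + 1 ≤ (8 * D + 8) / r0 + 2 := by
        have := Nat.div_le_div_right (c := r0) hlen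
        omega
      refine lt_of_le_of_lt (Nat.mul_le_mul_right _ (h2.trans (Nat.mul_le_mul_right _ h4))) h3
  refine ⟨dst H {x | x ∈ l}, fun u v h => dst_adj H hD hne' h, fun y hy => dst_mem H hy, hcard,
    ?_⟩
  set c := (univ.filter (fun v => dst H {x | x ∈ l} v ≤ r0)).card
  by_contra hcon
  push Not at hcon
  have h5 : (r0 + 1) * Fintype.card V ≤ (2 * D) * Fintype.card V :=
    Nat.mul_le_mul_right _ (by omega)
  have h6 : (2 * D) * Fintype.card V ≤ (2 * D) * (8 * c) := Nat.mul_le_mul_left _ hcon.le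
  have h7 : (2 * D) * (8 * c) ≤ c * (32 * D) := by
    have : c * (32 * D) = 2 * ((2 * D) * (8 * c)) := by ring
    omega
  omega

/-- Hypothesis 3 of `scales` from the conclusion of `top_abs` for the Cayley graph. -/
theorem top_group (H : Homog G) {D : ℕ} (hD : ∀ x y : V, y ∈ ball H x D) (hD1 : 1 ≤ D)
    (P : List V) (hP : P ≠ [])
    (habs : ∀ ψ : V → ℕ, (∀ u v, G.Adj u v → ψ v ≤ ψ u + 1) → (∀ x ∈ P, ψ x = 0) →
      ∀ r, r ≤ D → ∀ r0 : ℕ,
      (∀ l : List V, IsP G l → l.length ≤ 8 * D + 8 → ∃ φ : V → ℕ,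
        (∀ u v, G.Adj u v → φ v ≤ φ u + 1) ∧ (∀ y ∈ l, φ y = 0) ∧
        (univ.filter (fun v => φ v ≤ r0)).card * (32 * D) < (r0 + 1) * Fintype.card V ∧
        8 * (univ.filter (fun v => φ v ≤ r0)).card ≤ Fintype.card V) →
      Fintype.card V * (r + 1) ≤ 32 * D * (univ.filter (fun v => ψ v ≤ r)).card ∨
        Fintype.card V ≤ 16 * P.length)
    (r r0 : ℕ) (hr : r ≤ D) (hr0 : r0 ≤ D)
    (h1 : 1 ≤ r0 → ((8 * D + 8) / r0 + 2) * (bb H (2 * r0)) * (32 * D) <
      (r0 + 1) * Fintype.card V)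
    (h0 : r0 = 0 → (8 * D + 8) * (32 * D) < Fintype.card V) :
    Fintype.card V * (r + 1) ≤
      32 * D * (univ.filter (fun x => ∃ v ∈ P, v ∈ ball H x r)).card ∨
      Fintype.card V ≤ 16 * P.length := by
  have hne' : ({x | x ∈ P} : Set V).Nonempty := by
    obtain ⟨x, hx⟩ := List.exists_mem_of_ne_nil P hP
    exact ⟨x, hx⟩
  have h := habs (dst H {x | x ∈ P}) (fun u v h => dst_adj H hD hne' h)
    (fun x hx => dst_mem H hx) r hr r0 (fun l hl hlen => hY H hD hD1 r0 hr0 h1 h0 l hl hlen)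
  have e : univ.filter (fun v => dst H {x | x ∈ P} v ≤ r) =
      univ.filter (fun x => ∃ v ∈ P, v ∈ ball H x r) := by
    ext x
    simp only [mem_filter, mem_univ, true_and]
    rw [dst_le_iff H hD hne']
    constructor
    · rintro ⟨y, hy, h⟩
      exact ⟨y, hy, ball_symm H h⟩
    · rintro ⟨y, hy, h⟩
      exact ⟨y, hy, ball_symm H h⟩
  rw [e] at h
  exact h

end TopGroup

end Pool.Agent.Lib.MP_688fd0_co.LPV
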