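import Pool.Agent.Lib.MP_688fd0_co.LP.TopMain
import Pool.Agent.Lib.MP_688fd0_co.LP.VT.TopGroup

/-!
Top lemma for vertex-transitive graphs (helper20), from `top_graph` (helper50) and the version of `LP/TopGroup.lean`
(helper43) for vertex-transitive graphs.
-/

set_option autoImplicit false

namespace Pool.Agent.Lib.MP_688fd0_co.LPV

open Classical Finset

open Pool.Agent.Lib.MP_688fd0_co.LP

/-- the top lemma for vertex-transitive graphs. -/
theorem top_vt {V : Type*} [Fintype V] [Nonempty V] {G : SimpleGraph V} (H : Homog G) {D : ℕ}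
    (hD : ∀ x y : V, y ∈ ball H x D) (hD1 : 1 ≤ D)
    (P : List V) (hP : MaxP G P) (r r0 : ℕ) (hr : r ≤ D) (hr0 : r0 ≤ D)
    (h1 : 1 ≤ r0 → ((8 * D + 8) / r0 + 2) * bb H (2 * r0) * (32 * D) <
      (r0 + 1) * Fintype.card V)
    (h0 : r0 = 0 → (8 * D + 8) * (32 * D) < Fintype.card V) :
    Fintype.card V * (r + 1) ≤
      32 * D * (univ.filter (fun x => ∃ v ∈ P, v ∈ ball H x r)).card ∨
      Fintype.card V ≤ 16 * P.length :=
  TopGroup.top_group H hD hD1 P hP.isP.1
    (fun ψ hψ hψP r hr r0 hY => top_graph G D hD1 (fun W => hiso H hD W) P hP ψ hψ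
      hψP r hr r0 hY) r r0 hr hr0 h1 h0

end Pool.Agent.Lib.MP_688fd0_co.LPV
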