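import Pool.Agent.Lib.MP_688fd0_co.LP.ConnBasic
import Pool.Agent.Lib.MP_688fd0_co.LP.Menger
import Pool.Agent.Lib.MP_688fd0_co.LP.VT.Homog

/-!
Version of `LP/TwoConn.lean` (helper52) for vertex-transitive graphs (helper20): a cycle through two vertices at
maximal distance.
-/

set_option autoImplicit false
set_option linter.unusedSectionVars false

namespace Pool.Agent.Lib.MP_688fd0_co.LPV

open Classical

open Pool.Agent.Lib.MP_688fd0_co.LP

namespace TwoConn

variable {V : Type*} [Fintype V] [Nonempty V] {G : SimpleGraph V}

/-- a farthest vertex is not a cut vertex -/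
theorem conn_far (H : Homog G) {D : ℕ} {o v0 : V} (hD1 : 1 ≤ D) (hv0 : v0 ∉ ball H o (D - 1)) :
    ∀ r ≤ D, ∀ u ∈ ball H o r, u ≠ v0 → Conn G {x | x ≠ v0} o u := by
  have h1 : o ≠ v0 := by
    rintro rfl
    exact hv0 (self_mem_ball H _ _)
  intro r
  induction r with
  | zero =>
    intro _ u hu _
    have : o = u := mem_zero.1 hu
    subst this
    exact Conn.refl h1
  | succ r ih =>
    intro hr u hu hne
    obtain ⟨u', hu', ht⟩ := ball_split hu
    have hne' : u' ≠ v0 := by
      rintro rfl
      exact hv0 (ball_mono H _ (by omega) hu')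
    have h2 := ih (by omega) u' hu' hne'
    rcases (ball_one_iff H).1 ht with ht1 | ht1
    · subst ht1
      exact h2
    · exact h2.tail ht1 hne

theorem conn_translate (φ : G ≃g G) {F : Set V} {u v : V} (h : Conn G F u v) :
    Conn G (φ '' F) (φ u) (φ v) := by
  obtain ⟨hu, h⟩ := h
  refine ⟨⟨u, hu, rfl⟩, ?_⟩
  induction h with
  | refl => exact Relation.ReflTransGen.refl
  | @tail b c _ h2 ih =>
    exact ih.tail ⟨φ.map_adj_iff.2 h2.1, ⟨c, h2.2, rfl⟩⟩

/-- a connected vertex-transitive graph has no cut vertex -/
theorem conn_avoid (H : Homog G) (htr : ∀ x y : V, ∃ φ : G ≃g G, φ x = y) {D : ℕ}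
    (hD : ∀ x y : V, y ∈ ball H x D) {o v0 : V} (hD1 : 1 ≤ D)
    (hv0 : v0 ∉ ball H o (D - 1)) {v x y : V} (hx : x ≠ v) (hy : y ≠ v) :
    Conn G {w | w ≠ v} x y := by
  obtain ⟨φ, hφ⟩ := htr v0 v
  have key : ∀ u, u ≠ v → Conn G {w | w ≠ v} (φ o) u := by
    intro u hu
    have h1 : φ.symm u ≠ v0 := by
      intro h
      apply hu
      rw [← hφ, ← h]
      simp
    have h2 := conn_far H hD1 hv0 D le_rfl (φ.symm u) (hD _ _) h1
    have h3 := conn_translate φ h2
    have h4 : φ (φ.symm u) = u := by simp
    rw [h4] at h3
    refine h3.mono ?_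
    rintro _ ⟨w, hw, rfl⟩
    intro h
    apply hw
    rw [← hφ] at h
    exact φ.injective h
  exact (key x hx).symm.trans (key y hy)

/-- the end of a path of length `k` is within distance `k` -/
theorem path_dist (H : Homog G) (l : List V) : ∀ a b : V, l.IsChain G.Adj → l.head? = some a →
    l.getLast? = some b → b ∈ ball H a (l.length - 1) := by
  induction l with
  | nil => intro a b _ h; simp at h
  | cons c l ih =>
    intro a b hc hh hl
    rw [List.head?_cons, Option.some.injEq] at hh
    subst hh
    cases l with
    | nil =>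
      simp at hl
      subst hl
      exact self_mem_ball H _ _
    | cons d l =>
      have h1 := List.isChain_cons_cons.1 hc
      have h2 := ih d b h1.2 rfl (by simpa using hl)
      have h3 := adj_mem_ball H h1.1
      refine ball_trans' H h3 h2 ?_
      simp only [List.length_cons]
      omega

end TwoConn

open TwoConn

/-- A cycle through two vertices at distance `D`. -/
theorem exists_cyc {V : Type*} [Fintype V] [Nonempty V] {G : SimpleGraph V} (H : Homog G)
    (htr : ∀ x y : V, ∃ φ : G ≃g G, φ x = y) (D : ℕ)
    (hD : ∀ x y : V, y ∈ ball H x D) (hD1 : 1 ≤ D) (o y : V) (hy : y ∉ ball H o (D - 1))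
    (hn : 3 ≤ Fintype.card V) : ∃ c, Cyc G c ∧ 2 * D ≤ c.length := by
  have h1y : o ≠ y := by
    rintro rfl
    exact hy (self_mem_ball H _ _)
  rcases Nat.lt_or_ge D 2 with hD2 | hD2
  · -- complete graph
    have hD1' : D = 1 := by omega
    subst hD1'
    obtain ⟨z, hz1, hz2⟩ : ∃ z : V, z ≠ o ∧ z ≠ y := by
      by_contra h
      push Not at h
      have : (Finset.univ : Finset V) ⊆ {o, y} := by
        intro z _
        rw [Finset.mem_insert, Finset.mem_singleton]
        by_cases hz : z = o
        · exact Or.inl hz
        · exact Or.inr (h z hz)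
      have h2 := (Finset.card_le_card this).trans Finset.card_le_two
      rw [Finset.card_univ] at h2
      omega
    have hadj : ∀ a b : V, a ≠ b → G.Adj a b := by
      intro a b hab
      exact ((ball_one_iff H).1 (hD a b)).resolve_left hab
    refine ⟨[o, y, z], ⟨⟨by simp, ?_, ?_⟩, by simp, o, z, rfl, rfl, hadj _ _ hz1⟩, by simp⟩
    · rw [List.isChain_cons_cons, List.isChain_cons_cons]
      exact ⟨hadj _ _ h1y, hadj _ _ (Ne.symm hz2), by simp⟩
    · simp [h1y, Ne.symm hz1, Ne.symm hz2]
  · -- Menger
    have hnadj : y ∉ ball H o (D - 1) := hy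
    obtain ⟨z0, hz01, hz02⟩ : ∃ z : V, z ≠ o ∧ z ≠ y := by
      by_contra h
      push Not at h
      have : (Finset.univ : Finset V) ⊆ {o, y} := by
        intro z _
        rw [Finset.mem_insert, Finset.mem_singleton]
        by_cases hz : z = o
        · exact Or.inl hz
        · exact Or.inr (h z hz)
      have h2 := (Finset.card_le_card this).trans Finset.card_le_two
      rw [Finset.card_univ] at h2
      omega
    let F : Set V := {w | w ≠ o ∧ w ≠ y}
    obtain ⟨Q, hQ⟩ := menger G F {a | G.Adj o a} {b | G.Adj y b} 2 (by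
      intro X hX
      obtain ⟨v, hv1, hvy, hvX⟩ : ∃ v : V, v ≠ o ∧ v ≠ y ∧ ∀ u ∈ X, u = v ∨ u = o ∨ u = y := by
        by_cases hex : ∃ v ∈ X, v ≠ o ∧ v ≠ y
        · obtain ⟨v, hv, h1, h2⟩ := hex
          refine ⟨v, h1, h2, fun u hu => Or.inl ?_⟩
          exact Finset.card_le_one.1 (by omega) u hu v hv
        · push Not at hex
          refine ⟨z0, hz01, hz02, fun u hu => Or.inr ?_⟩
          by_cases hu1 : u = o
          · exact Or.inl hu1
          · exact Or.inr (hex u hu hu1)
      obtain ⟨l, hl, hlF⟩ := (conn_avoid H htr hD hD1 hy (v := v) (Ne.symm hv1)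
        (Ne.symm hvy) : Conn G {w | w ≠ v} o y).exists_path
      obtain ⟨⟨hne, hch, hnd⟩, hhd, hlast⟩ := hl
      obtain ⟨c, l1, rfl⟩ := List.exists_cons_of_ne_nil hne
      rw [List.head?_cons, Option.some.injEq] at hhd
      replace hhd := hhd.symm
      subst hhd
      rcases List.eq_nil_or_concat l1 with h | ⟨mid, e, h⟩
      · subst h
        simp at hlast
        exact absurd hlast h1y
      · subst h
        rw [List.concat_eq_append] at *
        have he : e = y := by
          rw [← List.cons_append, List.getLast?_append] at hlast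
          simpa using hlast
        subst he
        rw [List.isChain_cons] at hch
        obtain ⟨hc1, hc2⟩ := hch
        rw [List.isChain_append] at hc2
        obtain ⟨hc2, -, hc3⟩ := hc2
        rcases mid with _ | ⟨a, mid⟩
        · exfalso
          simp at hc1
          apply hnadj
          refine ball_mono H o (by omega) (adj_mem_ball H hc1)
        · obtain ⟨b, hb⟩ : ∃ b, (a :: mid).getLast? = some b := by
            rw [List.getLast?_cons]
            exact ⟨_, rfl⟩
          have hnd1 : (a :: mid).Nodup := by
            have := (List.nodup_cons.1 hnd).2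
            rw [List.nodup_append] at this
            exact this.1
          refine ⟨a, ?_, b, ?_, ?_⟩
          · exact hc1 a (by simp)
          · exact (hc3 b (by rw [hb]; rfl) e (by simp)).symm
          · refine IsPB.conn (l := a :: mid) ⟨⟨by simp, hc2, hnd1⟩, rfl, hb⟩ ?_
            intro x hx
            have hx1 : x ≠ o := by
              rintro rfl
              exact (List.nodup_cons.1 hnd).1 (List.mem_append_left _ hx)
            have hx2 : x ≠ e := by
              rintro rfl
              have := (List.nodup_cons.1 hnd).2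
              rw [List.nodup_append] at this
              exact this.2.2 x hx x (by simp) rfl
            refine ⟨⟨hx1, hx2⟩, ?_⟩
            intro hxX
            rcases hvX x hxX with h | h | h
            · have := hlF x (List.mem_cons_of_mem _ (List.mem_append_left _ hx))
              exact this h
            · exact hx1 h
            · exact hx2 h)
    obtain ⟨hQ1, hQ2⟩ := hQ
    obtain ⟨⟨hn0, hch0, hnd0⟩, hF0, ⟨a0, ha0, hh0⟩, ⟨b0, hb0, hl0⟩, -, -⟩ := hQ1 0
    obtain ⟨⟨hn1, hch1, hnd1⟩, hF1, ⟨a1, ha1, hh1⟩, ⟨b1, hb1, hl1⟩, -, -⟩ := hQ1 1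
    have hdis := hQ2 0 1 (by decide)
    have hlen : ∀ (q : List V) (a b : V), q.IsChain G.Adj → q.head? = some a →
        q.getLast? = some b → G.Adj o a → G.Adj y b → D ≤ q.length + 1 := by
      intro q a b hq ha hb h1a hyb
      by_contra hlt
      apply hnadj
      have h2 := path_dist H q a b hq ha hb
      have h3 := adj_mem_ball H h1a
      have h4 := adj_mem_ball H hyb.symm
      have hpos : 0 < q.length := by
        rw [List.length_pos_iff]
        rintro rfl
        simp at ha
      exact ball_trans' H (ball_trans h3 h2) h4 (by omega)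
    have g0 := hlen (Q 0) a0 b0 hch0 hh0 hl0 ha0 hb0
    have g1 := hlen (Q 1) a1 b1 hch1 hh1 hl1 ha1 hb1
    have hyQ0 : y ∉ Q 0 := fun h => (hF0 y h).2 rfl
    have hyQ1 : y ∉ Q 1 := fun h => (hF1 y h).2 rfl
    have h1Q0 : o ∉ Q 0 := fun h => (hF0 o h).1 rfl
    have h1Q1 : o ∉ Q 1 := fun h => (hF1 o h).1 rfl
    refine ⟨o :: (Q 0 ++ (y :: (Q 1).reverse)), ⟨⟨by simp, ?_, ?_⟩, ?_, o, a1, rfl, ?_, ?_⟩, ?_⟩
    · rw [List.isChain_cons, List.isChain_append, List.isChain_cons]
      refine ⟨?_, hch0, ⟨?_, ?_⟩, ?_⟩
      · intro z hz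
        rw [List.head?_append, hh0] at hz
        simp at hz
        subst hz
        exact ha0
      · intro z hz
        rw [List.head?_reverse, hl1] at hz
        simp at hz
        subst hz
        exact hb1
      · rw [List.isChain_reverse]
        exact hch1.imp fun _ _ h => h.symm
      · intro z hz w hw
        rw [hl0] at hz
        simp at hz hw
        subst hz hw
        exact hb0.symm
    · rw [List.nodup_cons, List.nodup_append, List.nodup_cons]
      refine ⟨?_, hnd0, ⟨by simpa using hyQ1, by simpa using hnd1⟩, ?_⟩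
      · simp [h1Q0, h1Q1, h1y]
      · intro z hz w hw hzw
        subst hzw
        rcases List.mem_cons.1 hw with h | h
        · subst h
          exact hyQ0 hz
        · exact hdis hz (by simpa using h)
    · have : 0 < (Q 0).length := List.length_pos_iff.2 hn0
      simp only [List.length_cons, List.length_append, List.length_reverse]
      omega
    · rw [← List.cons_append, List.getLast?_append]
      have : (y :: (Q 1).reverse).getLast? = some a1 := by
        rw [show (y :: (Q 1).reverse) = [y] ++ (Q 1).reverse from rfl, List.getLast?_append,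
          List.getLast?_reverse, hh1]
        rfl
      rw [this]
      rfl
    · exact ha1.symm
    · simp only [List.length_cons, List.length_append, List.length_reverse]
      omega

end Pool.Agent.Lib.MP_688fd0_co.LPV
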