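import Pool.Agent.Lib.MP_688fd0_co.LP.VT.F12
import Pool.Agent.Lib.MP_688fd0_co.LP.VT.TopMain
import Pool.Agent.Lib.MP_688fd0_co.LP.VT.TwoConn
import Pool.Agent.Lib.MP_688fd0_co.LP.Rate

/-!
Long cycles in vertex-transitive graphs: assembly (helper20).
-/

set_option autoImplicit false
set_option linter.unusedSectionVars false

namespace Pool.Agent.Lib.MP_688fd0_co.LPV

open Classical Finset

open Pool.Agent.Lib.MP_688fd0_co.LP

section
variable {V : Type*} [Fintype V] [Nonempty V] {G : SimpleGraph V}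

lemma exists_D (H : Homog G) (hc : G.Connected) : ∃ D, ∀ x y : V, y ∈ ball H x D := by
  have h1 : ∀ x y : V, ∃ r, y ∈ ball H x r := by
    intro x y
    obtain ⟨w⟩ := hc.preconnected x y
    induction w with
    | nil => exact ⟨0, self_mem_ball H _ _⟩
    | cons h _ ih =>
      obtain ⟨r, hr⟩ := ih
      exact ⟨1 + r, ball_trans (adj_mem_ball H h) hr⟩
  choose f hf using h1
  refine ⟨univ.sup (fun p : V × V => f p.1 p.2), fun x y => ?_⟩
  exact ball_mono H x (Finset.le_sup (f := fun p : V × V => f p.1 p.2) (mem_univ (x, y))) (hf x y)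

/-- the diameter -/
lemma exists_diam (H : Homog G) (hc : G.Connected) : ∃ D, (∀ x y : V, y ∈ ball H x D) ∧
    ∀ r < D, bb H r < Fintype.card V := by
  refine ⟨Nat.find (exists_D H hc), Nat.find_spec (exists_D H hc), ?_⟩
  intro r hr
  have h1 := Nat.find_min (exists_D H hc) hr
  push Not at h1
  obtain ⟨x, y, hxy⟩ := h1
  rw [← card_ball H x, ← Finset.card_univ]
  apply Finset.card_lt_card
  rw [Finset.ssubset_univ_iff]
  intro h
  exact hxy (by rw [h]; exact mem_univ _)

/-- a longest cycle -/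
lemma exists_longest {c : List V} (hc : Cyc G c) : ∃ P, Cyc G P ∧ ∀ c', Cyc G c' → c'.length ≤ P.length := by
  have hb : ∀ c', Cyc G c' → c'.length ≤ Fintype.card V := fun c' h => h.1.2.2.length_le_card
  have hex : ∃ m, ∃ P, Cyc G P ∧ P.length + m = Fintype.card V :=
    ⟨Fintype.card V - c.length, c, hc, by have := hb c hc; omega⟩
  obtain ⟨P, hP, hPm⟩ := Nat.find_spec hex
  refine ⟨P, hP, fun c' hc' => ?_⟩
  by_contra hlt
  have h1 := hb c' hc'
  exact Nat.find_min hex (m := Fintype.card V - c'.length) (by omega) ⟨c', hc', by omega⟩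

lemma maxP_of_longest {P : List V} (hP : Cyc G P) (hmax : ∀ c', Cyc G c' → c'.length ≤ P.length) : MaxP G P := by
  refine ⟨hP.1, ?_, hmax⟩
  intro l hl hh hlast
  rcases Nat.lt_or_ge l.length 3 with h3 | h3
  · have := hP.2.1
    omega
  · obtain ⟨a, b, ha, hb, hab⟩ := hP.2.2
    exact hmax l ⟨hl, h3, a, b, by rw [hh, ha], by rw [hlast, hb], hab⟩

end

/-- Long cycles in vertex-transitive graphs. -/
theorem long_cycle {V : Type*} [Fintype V] (G : SimpleGraph V) (hc : G.Connected)
    (htr : ∀ x y : V, ∃ φ : G ≃g G, φ x = y) (hn : 3 ≤ Fintype.card V) :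
    ∃ c, Cyc G c ∧ (Fintype.card V : ℝ) *
      Real.exp (-(2800 * (Real.log (Fintype.card V)) ^ (3 / 4 : ℝ))) ≤ c.length := by
  have : Nonempty V := hc.nonempty
  obtain ⟨o⟩ := (inferInstance : Nonempty V)
  set H : Homog G := Homog.ofVT htr o with hH
  clear_value H
  obtain ⟨D, hD, hD'⟩ := exists_diam H hc
  have hD1 : 1 ≤ D := by
    by_contra h
    have h0 : D = 0 := by omega
    subst h0
    have h1 : Fintype.card V ≤ 1 := by
      rw [Fintype.card_le_one_iff]
      intro x y
      exact mem_zero.1 (hD x y)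
    omega
  obtain ⟨y, -, hy⟩ := exists_dist H hD hD' o D hD1 le_rfl
  obtain ⟨c, hcyc, hclen⟩ := exists_cyc H htr D hD hD1 o y hy hn
  obtain ⟨P, hP, hmax⟩ := exists_longest hcyc
  have hMax := maxP_of_longest hP hmax
  have hDP : D + 1 ≤ P.length := by
    have := hmax c hcyc
    omega
  refine ⟨P, hP, ?_⟩
  refine Rate.rate (Fintype.card V) D P.length (bb H) (ff H P) (by omega) hD1 (fun r s h => b_mono H h) ?_ ?_
    (bb_D H hD) ?_ ?_ (fun r => Finset.card_le_univ _) ?_ hDP (F1 hD hD' P hMax hDP) (F2 hD hD' P hMax hDP) ?_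
  · rw [← card_ball H o, Finset.card_eq_one]
    refine ⟨o, ?_⟩
    ext z
    rw [mem_singleton]
    exact ⟨fun h => (mem_zero.1 h).symm, fun h => mem_zero.2 h.symm⟩
  · intro r
    rw [← card_ball H o]
    exact Finset.card_le_univ _
  · intro r s h
    apply Finset.card_le_card
    intro x hx
    simp only [mem_filter, mem_univ, true_and] at hx ⊢
    obtain ⟨v, hv, hvx⟩ := hx
    exact ⟨v, hv, ball_mono H x h hvx⟩
  · unfold ff
    rw [← List.toFinset_card_of_nodup hP.1.2.2]
    congr 1
    ext x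
    simp only [mem_filter, mem_univ, true_and, List.mem_toFinset]
    constructor
    · rintro ⟨v, hv, hvx⟩
      rw [mem_zero.1 hvx]; exact hv
    · intro hx
      exact ⟨x, hx, self_mem_ball H x 0⟩
  · unfold ff
    rw [← Finset.card_univ]
    congr 1
    ext x
    simp only [mem_filter, mem_univ, true_and, iff_true]
    obtain ⟨v, hv⟩ := List.exists_mem_of_ne_nil P hP.1.1
    exact ⟨v, hv, hD x v⟩
  · intro r r0 hr hr0 h1 h0
    rcases top_vt H hD hD1 P hMax r r0 hr hr0 h1 h0 with h | h
    · exact Or.inl h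
    · right; omega

end Pool.Agent.Lib.MP_688fd0_co.LPV
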