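import Pool.Agent.Lib.MP_688fd0_co.LP.VT.Final

/-!
Translation of the long cycle theorem into Mathlib cycles and into generator sequences of groups (helper20).
-/

set_option autoImplicit false

namespace Pool.Agent.Lib.MP_688fd0_co.LPV

open Pool.Agent.Lib.MP_688fd0_co.LP

lemma walk_of_chain {V : Type*} {G : SimpleGraph V} (l : List V) : ∀ a : V, (a :: l).IsChain G.Adj →
    ∃ (b : V) (p : G.Walk a b), p.support = a :: l ∧ (a :: l).getLast? = some b := by
  induction l with
  | nil => intro a _; exact ⟨a, SimpleGraph.Walk.nil, rfl, rfl⟩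
  | cons c l ih =>
    intro a h
    rw [List.isChain_cons_cons] at h
    obtain ⟨b, p, hp, hb⟩ := ih c h.2
    refine ⟨b, SimpleGraph.Walk.cons h.1 p, by simp [hp], ?_⟩
    rw [List.getLast?_cons_cons, hb]

/-- the cycles of the proof are cycles in the sense of Mathlib -/
theorem cyc_walk {V : Type*} {G : SimpleGraph V} {c : List V} (hc : Cyc G c) :
    ∃ (v : V) (p : G.Walk v v), p.IsCycle ∧ p.length = c.length := by
  obtain ⟨⟨hne, hch, hnd⟩, h3, a, b, ha, hb, hab⟩ := hc
  obtain ⟨a', l, rfl⟩ := List.exists_cons_of_ne_nil hne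
  simp only [List.head?_cons, Option.some.injEq] at ha
  subst ha
  obtain ⟨b', p, hp, hb'⟩ := walk_of_chain l a' hch
  have hbb : b' = b := by rw [hb] at hb'; simpa using hb'.symm
  subst hbb
  have hlen : p.length + 1 = (a' :: l).length := by rw [← hp, SimpleGraph.Walk.length_support]
  refine ⟨b', SimpleGraph.Walk.cons hab p, ?_, ?_⟩
  · rw [SimpleGraph.Walk.cons_isCycle_iff]
    have hpath : p.IsPath := by rw [SimpleGraph.Walk.isPath_def, hp]; exact hnd
    refine ⟨hpath, ?_⟩
    intro hmem
    cases p with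
    | nil => exact absurd rfl hab.ne
    | @cons _ w _ h q =>
      rw [SimpleGraph.Walk.cons_isPath_iff] at hpath
      rw [SimpleGraph.Walk.edges_cons, List.mem_cons] at hmem
      rcases hmem with hmem | hmem
      · rw [Sym2.eq_iff] at hmem
        have hw : b' = w := by
          rcases hmem with ⟨h1, h2⟩ | ⟨h1, _⟩
          · exact absurd h1 hab.ne
          · exact h1
        subst hw
        have h5 : q.length = 0 :=
          SimpleGraph.Walk.length_eq_zero_iff.2 (SimpleGraph.Walk.isPath_iff_nil.1 hpath.1)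
        rw [SimpleGraph.Walk.length_cons] at hlen
        omega
      · exact hpath.2 (SimpleGraph.Walk.snd_mem_support_of_mem_edges q hmem)
  · rw [SimpleGraph.Walk.length_cons]; exact hlen

/-- Long cycles in vertex-transitive graphs, Mathlib form. -/
theorem long_cycle_walk {V : Type*} [Fintype V] (G : SimpleGraph V) (hc : G.Connected)
    (htr : ∀ x y : V, ∃ φ : G ≃g G, φ x = y) (hn : 3 ≤ Fintype.card V) :
    ∃ (v : V) (p : G.Walk v v), p.IsCycle ∧ (Fintype.card V : ℝ) *
      Real.exp (-(2800 * (Real.log (Fintype.card V)) ^ (3 / 4 : ℝ))) ≤ p.length := by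
  obtain ⟨c, h1, h2⟩ := long_cycle G hc htr hn
  obtain ⟨v, p, h3, h4⟩ := cyc_walk h1
  exact ⟨v, p, h3, by rw [h4]; exact h2⟩

section group

variable {Γ : Type*} [Group Γ]

/-- the Cayley graph of a set -/
def cayS (A : Set Γ) : SimpleGraph Γ := SimpleGraph.fromRel (fun x y => x⁻¹ * y ∈ A)

lemma cayS_adj {A : Set Γ} (hA : ∀ x ∈ A, x⁻¹ ∈ A) {x y : Γ} : (cayS A).Adj x y ↔ x ≠ y ∧ x⁻¹ * y ∈ A := by
  unfold cayS
  rw [SimpleGraph.fromRel_adj]
  constructor
  · rintro ⟨h1, h2 | h2⟩
    · exact ⟨h1, h2⟩
    · refine ⟨h1, ?_⟩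
      have := hA _ h2
      simpa using this
  · rintro ⟨h1, h2⟩
    exact ⟨h1, Or.inl h2⟩

lemma cayS_conn {A : Set Γ} (hA : ∀ x ∈ A, x⁻¹ ∈ A) (hgen : Subgroup.closure A = ⊤) : (cayS A).Connected := by
  have h1 : ∀ g : Γ, ∀ x : Γ, (cayS A).Reachable x (x * g) := by
    intro g
    have hg : g ∈ Subgroup.closure A := by rw [hgen]; trivial
    induction hg using Subgroup.closure_induction with
    | mem a ha =>
      intro x
      by_cases h : x = x * a
      · rw [← h]
      · exact SimpleGraph.Adj.reachable ((cayS_adj hA).2 ⟨h, by simpa using ha⟩)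
    | one => intro x; rw [mul_one]
    | mul a b _ _ iha ihb =>
      intro x
      rw [← mul_assoc]
      exact (iha x).trans (ihb (x * a))
    | inv a _ iha =>
      intro x
      have := iha (x * a⁻¹)
      rw [inv_mul_cancel_right] at this
      exact this.symm
  refine ⟨fun x y => ?_⟩
  have := h1 (x⁻¹ * y) x
  rwa [mul_inv_cancel_left] at this

lemma cayS_trans {A : Set Γ} (hA : ∀ x ∈ A, x⁻¹ ∈ A) (x y : Γ) : ∃ φ : cayS A ≃g cayS A, φ x = y := by
  refine ⟨⟨Equiv.mulLeft (y * x⁻¹), ?_⟩, ?_⟩
  · intro a b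
    rw [cayS_adj hA, cayS_adj hA]
    simp [mul_assoc]
  · change y * x⁻¹ * x = y
    group

/-- a cycle of the Cayley graph as a sequence of generators -/
lemma seq_of_cyc {A : Set Γ} (hA : ∀ x ∈ A, x⁻¹ ∈ A) {l : List Γ} (hl : Cyc (cayS A) l) :
    ∃ c : Fin l.length → Γ, (∀ i, c i ∈ A) ∧
      Function.Injective (fun j : Fin l.length => ((List.ofFn c).take (j + 1)).prod) ∧ (List.ofFn c).prod = 1 := by
  obtain ⟨⟨hne, hch, hnd⟩, h3, a, b, ha, hb, hab⟩ := hl
  set m := l.length with hm
  have hmod : ∀ i : ℕ, i % m < l.length := fun i => Nat.mod_lt _ (by omega)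
  set x : ℕ → Γ := fun i => l[i % m]'(hmod i) with hx
  have hadj : ∀ i < m, (x i)⁻¹ * x (i + 1) ∈ A := by
    intro i hi
    rcases Nat.lt_or_ge (i + 1) m with h | h
    · have h1 := List.isChain_iff_getElem.1 hch i h
      have h2 := ((cayS_adj hA).1 h1).2
      simpa only [hx, Nat.mod_eq_of_lt hi, Nat.mod_eq_of_lt h] using h2
    · have h1 : i + 1 = m := by omega
      have h2 := ((cayS_adj hA).1 hab).2
      have h4 : x i = b := by
        have : l.getLast? = some (l[m - 1]'(by omega)) := by
          rw [List.getLast?_eq_getElem?, List.getElem?_eq_getElem (by omega)]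
        rw [hb] at this
        simp only [Option.some.injEq] at this
        rw [this]
        have e : i % m = m - 1 := by rw [Nat.mod_eq_of_lt hi]; omega
        simp only [hx, e]
      have h5 : x (i + 1) = a := by
        have : l.head? = some (l[0]'(by omega)) := by
          rw [List.head?_eq_getElem?, List.getElem?_eq_getElem (by omega)]
        rw [ha] at this
        simp only [Option.some.injEq] at this
        rw [this]
        have e : (i + 1) % m = 0 := by rw [h1, Nat.mod_self]
        simp only [hx, e]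
      rw [h4, h5]; exact h2
  have hpart : ∀ j ≤ m, ((List.ofFn (fun i : Fin m => (x i)⁻¹ * x (i + 1))).take j).prod = (x 0)⁻¹ * x j := by
    intro j
    induction j with
    | zero => intro _; simp
    | succ j ih =>
      intro hj
      rw [List.prod_take_succ _ _ (by rw [List.length_ofFn]; omega), ih (by omega)]
      simp [mul_assoc]
  refine ⟨fun i => (x i)⁻¹ * x (i + 1), fun i => hadj i i.2, ?_, ?_⟩
  · intro i j hij
    simp only at hij
    rw [hpart _ i.2, hpart _ j.2, mul_right_inj] at hij
    have h1 : (i.1 + 1) % m = (j.1 + 1) % m := (List.Nodup.getElem_inj_iff hnd).1 hij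
    apply Fin.ext
    have hi := i.2
    have hj := j.2
    rcases Nat.lt_or_ge (i.1 + 1) m with h | h <;> rcases Nat.lt_or_ge (j.1 + 1) m with h' | h'
    · rw [Nat.mod_eq_of_lt h, Nat.mod_eq_of_lt h'] at h1; omega
    · have e : j.1 + 1 = m := by omega
      rw [Nat.mod_eq_of_lt h, e, Nat.mod_self] at h1; omega
    · have e : i.1 + 1 = m := by omega
      rw [Nat.mod_eq_of_lt h', e, Nat.mod_self] at h1; omega
    · omega
  · have h1 := hpart m le_rfl
    rw [List.take_of_length_le (by rw [List.length_ofFn])] at h1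
    rw [h1]
    have : x m = x 0 := by simp only [hx, Nat.mod_self, Nat.zero_mod]
    rw [this, inv_mul_cancel]

/-- Long sequences of generators with distinct partial products. -/
theorem long_seq [Fintype Γ] (A : Set Γ) (hne : A.Nonempty) (hA : ∀ x ∈ A, x⁻¹ ∈ A)
    (hgen : Subgroup.closure A = ⊤) :
    ∃ (k : ℕ) (c : Fin k → Γ), (∀ i, c i ∈ A) ∧
      Function.Injective (fun j : Fin k => ((List.ofFn c).take (j + 1)).prod) ∧ (List.ofFn c).prod = 1 ∧
      (Fintype.card Γ : ℝ) * Real.exp (-(2800 * (Real.log (Fintype.card Γ)) ^ (3 / 4 : ℝ))) ≤ k := by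
  have hpos : 0 < Fintype.card Γ := Fintype.card_pos
  have hlog : 0 ≤ Real.log (Fintype.card Γ) := Real.log_natCast_nonneg _
  have hle : (Fintype.card Γ : ℝ) * Real.exp (-(2800 * (Real.log (Fintype.card Γ)) ^ (3 / 4 : ℝ))) ≤
      Fintype.card Γ := by
    have h1 : Real.exp (-(2800 * (Real.log (Fintype.card Γ)) ^ (3 / 4 : ℝ))) ≤ 1 := by
      rw [Real.exp_le_one_iff]
      have := Real.rpow_nonneg hlog (3 / 4 : ℝ)
      linarith
    calc _ ≤ (Fintype.card Γ : ℝ) * 1 := by gcongr
      _ = _ := mul_one _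
  rcases Nat.lt_or_ge (Fintype.card Γ) 3 with hn | hn
  · rcases (by omega : Fintype.card Γ = 1 ∨ Fintype.card Γ = 2) with h1 | h2
    · obtain ⟨a, ha⟩ := hne
      have hs : Subsingleton Γ := Fintype.card_le_one_iff_subsingleton.1 h1.le
      refine ⟨1, fun _ => a, fun _ => ha, fun i j _ => Subsingleton.elim i j, Subsingleton.elim _ _, ?_⟩
      refine hle.trans ?_
      rw [h1]
    · obtain ⟨g, hg, hg1⟩ : ∃ g ∈ A, g ≠ 1 := by
        by_contra hcon
        push Not at hcon
        have h3 : Subgroup.closure A = ⊥ := by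
          rw [Subgroup.closure_eq_bot_iff]
          intro g hg
          exact hcon g hg
        rw [h3] at hgen
        have h4 : ∀ x : Γ, x = 1 := by
          intro x
          have : x ∈ (⊥ : Subgroup Γ) := by rw [hgen]; trivial
          simpa using this
        have : Fintype.card Γ ≤ 1 := Fintype.card_le_one_iff.2 (fun x y => by rw [h4 x, h4 y])
        omega
      have hgg : g * g = 1 := by
        have := pow_card_eq_one (x := g)
        rw [h2, pow_two] at this
        exact this
      refine ⟨2, fun _ => g, fun _ => hg, ?_, ?_, ?_⟩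
      · intro i j hij
        fin_cases i <;> fin_cases j <;> simp [List.ofFn_succ, hgg] at hij ⊢
        · exact hg1 hij
        · exact hg1 hij.symm
      · simp [List.ofFn_succ, hgg]
      · refine hle.trans ?_
        rw [h2]
  · obtain ⟨l, hl, hlen⟩ := long_cycle (cayS A) (cayS_conn hA hgen) (cayS_trans hA) hn
    obtain ⟨c, h1, h2, h3⟩ := seq_of_cyc hA hl
    exact ⟨l.length, c, h1, h2, h3, hlen⟩

end group

end Pool.Agent.Lib.MP_688fd0_co.LPV
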