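import Pool.Agent.Lib.MP_688fd0_co.LP.VT.Homog

/-!
Version of `LP/Count.lean` (helper55) for vertex-transitive graphs (helper20).
-/

set_option autoImplicit false
set_option linter.unusedSectionVars false

namespace Pool.Agent.Lib.MP_688fd0_co.LPV

open Classical Finset

open Pool.Agent.Lib.MP_688fd0_co.LP

variable {V : Type*} [Fintype V] [Nonempty V] {G : SimpleGraph V}

/-- double counting: if every ball of radius `ρ` about a point of `X` contains `a` points of `Y` then
`|X| a ≤ |Y| b(ρ)`. -/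
theorem ball_count (H : Homog G) (X Y : Finset V) (ρ a : ℕ)
    (h : ∀ x ∈ X, a ≤ (Y.filter (fun v => v ∈ ball H x ρ)).card) :
    X.card * a ≤ Y.card * (bb H ρ) := by
  refine Finset.card_mul_le_card_mul (fun x y => y ∈ ball H x ρ) (s := X) (t := Y) h ?_
  intro y _
  rw [← card_ball H y ρ]
  apply Finset.card_le_card
  intro x hx
  rw [Finset.mem_bipartiteBelow] at hx
  exact ball_symm H hx.2

/-- (F1)-type double counting: points at distance exactly `R+1` from `P` see `a` vertices of `P` within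
distance `ρ`. -/
theorem count_far (H : Homog G) (P : List V) (R R2 ρ a : ℕ)
    (h : ∀ x, ((∃ v ∈ P, v ∈ ball H x (R + 1)) ∧ ¬ ∃ v ∈ P, v ∈ ball H x R) →
      a ≤ (P.toFinset.filter (fun v => v ∈ ball H x ρ)).card) :
    ((Finset.univ.filter (fun x => ∃ v ∈ P, v ∈ ball H x R2)).card -
      (Finset.univ.filter (fun x => ∃ v ∈ P, v ∈ ball H x R)).card) * a ≤
      P.length * (bb H (R2 + ρ)) := by
  set Y := (Finset.univ.filter (fun x => ∃ v ∈ P, v ∈ ball H x R2)) \
      (Finset.univ.filter (fun x => ∃ v ∈ P, v ∈ ball H x R)) with hY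
  have h1 : Y.card * a ≤ P.toFinset.card * (bb H (R2 + ρ)) := by
    apply ball_count H
    intro x hx
    rw [hY, Finset.mem_sdiff, Finset.mem_filter, Finset.mem_filter] at hx
    obtain ⟨⟨_, hx2⟩, hx3⟩ := hx
    have hx4 : ¬ ∃ v ∈ P, v ∈ ball H x R := fun h' => hx3 ⟨Finset.mem_univ _, h'⟩
    have hex : ∃ k, ∃ v ∈ P, v ∈ ball H x k := ⟨R2, hx2⟩
    obtain ⟨v, hvP, hv⟩ := Nat.find_spec hex
    have hmin := fun m (hm : m < Nat.find hex) => Nat.find_min hex hm
    have hle : Nat.find hex ≤ R2 := Nat.find_min' hex hx2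
    generalize Nat.find hex = k at hv hmin hle
    have hk : R + 1 ≤ k := by
      by_contra hlt
      exact hx4 ⟨v, hvP, ball_mono H x (by omega) hv⟩
    obtain ⟨y, hy, hvy⟩ := ball_split (H := H) (x := x) (z := v) (r := k - (R + 1)) (s := R + 1)
      (by rwa [Nat.sub_add_cancel hk])
    have h2 := h y ⟨⟨v, hvP, hvy⟩, by
      rintro ⟨w, hwP, hw⟩
      exact hmin (k - (R + 1) + R) (by omega) ⟨w, hwP, ball_trans hy hw⟩⟩
    refine h2.trans (Finset.card_le_card ?_)
    intro w hw
    rw [Finset.mem_filter] at hw ⊢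
    exact ⟨hw.1, ball_trans' H hy hw.2 (by omega)⟩
  have h2 := Finset.le_card_sdiff (Finset.univ.filter (fun x => ∃ v ∈ P, v ∈ ball H x R))
    (Finset.univ.filter (fun x => ∃ v ∈ P, v ∈ ball H x R2))
  calc _ ≤ Y.card * a := Nat.mul_le_mul_right _ h2
    _ ≤ P.toFinset.card * (bb H (R2 + ρ)) := h1
    _ ≤ _ := Nat.mul_le_mul_right _ (List.toFinset_card_le P)

/-- (F2)-type double counting. -/
theorem count_near (H : Homog G) (P : List V) (R r ρ a : ℕ)
    (h : ∀ x, (∃ v ∈ P, v ∈ ball H x R) →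
      a ≤ ((ball H x ρ).filter (fun z => ∃ v ∈ P, v ∈ ball H z r)).card) :
    (Finset.univ.filter (fun x => ∃ v ∈ P, v ∈ ball H x R)).card * a ≤
      (Finset.univ.filter (fun x => ∃ v ∈ P, v ∈ ball H x r)).card * (bb H ρ) := by
  apply ball_count H
  intro x hx
  rw [Finset.mem_filter] at hx
  refine (h x hx.2).trans (Finset.card_le_card ?_)
  intro z hz
  rw [Finset.mem_filter] at hz
  rw [Finset.mem_filter, Finset.mem_filter]
  exact ⟨⟨Finset.mem_univ _, hz.2⟩, hz.1⟩

end Pool.Agent.Lib.MP_688fd0_co.LPV
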