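import Pool.Agent.Lib.MP_688fd0_co.LP.VT.Main
import Pool.Agent.Lib.MP_688fd0_co.LP.VT.Count
import Pool.Agent.Lib.MP_688fd0_co.LP.VT.TopGroup

/-!
The two consequences (F1), (F2) of the main lemma (section 5 of the blueprint) for vertex-transitive graphs (helper20).
-/

set_option autoImplicit false
set_option linter.unusedSectionVars false

namespace Pool.Agent.Lib.MP_688fd0_co.LPV

open Classical Finset

open Pool.Agent.Lib.MP_688fd0_co.LP

variable {V : Type*} [Fintype V] [Nonempty V] {G : SimpleGraph V}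

/-- number of vertices at distance at most `r` from `P` -/
noncomputable def ff (H : Homog G) (P : List V) (r : ℕ) : ℕ :=
  (univ.filter (fun x => ∃ v ∈ P, v ∈ ball H x r)).card

lemma bb_D (H : Homog G) {D : ℕ} (hD : ∀ x y : V, y ∈ ball H x D) : bb H D = Fintype.card V := by
  obtain ⟨x⟩ := ‹Nonempty V›
  rw [← card_ball H x, ← Finset.card_univ]
  congr 1
  ext y
  simp [hD x y]

/-- there are vertices at every distance up to `D` from every vertex -/
lemma exists_dist (H : Homog G) {D : ℕ} (hD : ∀ x y : V, y ∈ ball H x D)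
    (hD' : ∀ r < D, bb H r < Fintype.card V) (x : V) (r : ℕ) (h1 : 1 ≤ r)
    (hr : r ≤ D) : ∃ y ∈ ball H x r, y ∉ ball H x (r - 1) := by
  by_contra hcon
  push Not at hcon
  have h2 : ∀ k, ball H x (r + k) ⊆ ball H x (r - 1 + k) := by
    intro k z hz
    obtain ⟨y, hy, hyz⟩ := ball_split hz
    exact ball_trans (hcon y hy) hyz
  have h3 : ∀ k, ball H x (r + k) ⊆ ball H x (r - 1) := by
    intro k
    induction k with
    | zero => exact h2 0
    | succ k ih =>
      refine (h2 (k + 1)).trans ?_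
      rw [show r - 1 + (k + 1) = r + k by omega]
      exact ih
  have h4 : bb H D ≤ bb H (r - 1) := by
    refine (b_mono H (show D ≤ r + D by omega)).trans ?_
    rw [← card_ball H x, ← card_ball H x]
    exact Finset.card_le_card (h3 D)
  have h5 := hD' (r - 1) (by omega)
  rw [bb_D H hD] at h4
  omega

variable {H : Homog G} {s C R k : ℕ}

/-- the parameter `μ` -/
lemma mu_spec (C s b : ℕ) (hC : 1 ≤ C) (hs : 1 ≤ s) (hb : 128 * C ^ 2 * s ≤ b) :
    2 ≤ b / (64 * C ^ 2 * s) ∧ 64 * C ^ 2 * s * (b / (64 * C ^ 2 * s)) ≤ b ∧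
      b ≤ 128 * C ^ 2 * s * (b / (64 * C ^ 2 * s)) := by
  have hC2 : 1 ≤ C ^ 2 := Nat.one_le_pow _ _ hC
  have hpos : 0 < 64 * C ^ 2 * s := by positivity
  have h1 : 2 ≤ b / (64 * C ^ 2 * s) := by
    rw [Nat.le_div_iff_mul_le hpos]
    calc 2 * (64 * C ^ 2 * s) = 128 * C ^ 2 * s := by ring
      _ ≤ b := hb
  refine ⟨h1, Nat.mul_div_le _ _, ?_⟩
  have h2 := Nat.lt_mul_div_succ b hpos
  refine h2.le.trans ?_
  calc 64 * C ^ 2 * s * (b / (64 * C ^ 2 * s) + 1) ≤ 64 * C ^ 2 * s * (2 * (b / (64 * C ^ 2 * s))) :=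
        Nat.mul_le_mul_left _ (by omega)
    _ = _ := by ring

lemma hRC_of (C s R : ℕ) (hs : 1 ≤ s) (hR : 60 * C ^ 2 * s ≤ R) : C ^ 2 ≤ 2 ^ (R / (4 * s)) := by
  have h1 : C ^ 2 ≤ R / (4 * s) := by
    rw [Nat.le_div_iff_mul_le (by omega)]
    calc C ^ 2 * (4 * s) = 4 * C ^ 2 * s := by ring
      _ ≤ 60 * C ^ 2 * s := by gcongr; norm_num
      _ ≤ R := hR
  exact h1.trans Nat.lt_two_pow_self.le

/-- (F1), local form -/
lemma F1_local {D : ℕ} (hD : ∀ x y : V, y ∈ ball H x D) (hD' : ∀ r < D, bb H r < Fintype.card V)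
    (P : List V) (hP : MaxP G P) (hDP : D + 1 ≤ P.length)
    (hs : 1 ≤ s) (hC : 1 ≤ C) (hdbl : bb H (4 * s) ≤ C * bb H s) (hR : 60 * C ^ 2 * s ≤ R) (h2R : 2 * R ≤ D)
    (hk : Fintype.card V * (30 * s) ^ k < R ^ (k + 1)) (x : V)
    (hx : ∃ v ∈ P, v ∈ ball H x (R + 1)) (hx' : ¬ ∃ v ∈ P, v ∈ ball H x R) :
    bb H s ≤ 20 * cnt H P x ((4 * k + 4) * R) := by
  have hC2 : 1 ≤ C ^ 2 := Nat.one_le_pow _ _ hC
  have hCs : 1 ≤ C ^ 2 * s := Nat.mul_pos hC2 hs
  have e1 : 60 * C ^ 2 * s = 60 * (C ^ 2 * s) := by ring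
  have e2 : s ≤ C ^ 2 * s := Nat.le_mul_of_pos_left _ hC2
  have hR1 : 60 * s ≤ R := by omega
  have hlR : R + 1 + R ≤ (4 * k + 4) * R := by nlinarith
  rcases Nat.lt_or_ge (bb H s) (128 * C ^ 2 * s) with hb | hb
  · have h1 := cnt_start H P hP.isP x R (R + 1) (by omega) hx
    have h2 := cnt_mono H P x hlR
    have e3 : 128 * C ^ 2 * s = 128 * (C ^ 2 * s) := by ring
    omega
  · obtain ⟨hμ2, hμ1, hμ3⟩ := mu_spec C s _ hC hs hb
    have hpar : Par H s C (bb H s / (64 * C ^ 2 * s)) := ⟨hs, hC, hdbl, hμ1⟩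
    set μ := bb H s / (64 * C ^ 2 * s) with hμ
    have h1 := main_lemma hpar hμ2 R k hR1 (hRC_of C s R hs hR) hk P hP (by omega) x hx
      (exists_dist H hD hD' x (R - 6 * s) (by omega) (by omega)) ∅ (by simp [cs]) (by
        intro u hu huP
        have := BC.mem (hpar.theta_le x) hu
        exact hx' ⟨u, huP, by simpa using this⟩)
    have h3 : μ * (60 * C ^ 2 * s) ≤ μ * R := Nat.mul_le_mul_left _ hR
    have e4 : μ * (60 * C ^ 2 * s) = 60 * (C ^ 2 * s * μ) := by ring
    have e5 : 128 * C ^ 2 * s * μ = 128 * (C ^ 2 * s * μ) := by ring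
    omega

/-- (F1) -/
theorem F1 {D : ℕ} (hD : ∀ x y : V, y ∈ ball H x D) (hD' : ∀ r < D, bb H r < Fintype.card V)
    (P : List V) (hP : MaxP G P) (hDP : D + 1 ≤ P.length)
    (s R R2 k C : ℕ) (hs : 1 ≤ s) (hC : 1 ≤ C) (hdbl : bb H (4 * s) ≤ C * bb H s) (hR : 60 * C ^ 2 * s ≤ R)
    (h2R : 2 * R ≤ D) (hk : Fintype.card V * (30 * s) ^ k < R ^ (k + 1)) (_hRR : R ≤ R2) :
    (ff H P R2 - ff H P R) * bb H s ≤ 20 * P.length * bb H (R2 + (4 * k + 4) * R) := by
  have h1 := count_far H P R R2 ((4 * k + 4) * R) ((bb H s + 19) / 20) (by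
    rintro x ⟨hx, hx'⟩
    have := F1_local hD hD' P hP hDP hs hC hdbl hR h2R hk x hx hx'
    unfold cnt at this
    omega)
  have h2 : bb H s ≤ 20 * ((bb H s + 19) / 20) := by omega
  calc (ff H P R2 - ff H P R) * bb H s ≤ (ff H P R2 - ff H P R) * (20 * ((bb H s + 19) / 20)) :=
        Nat.mul_le_mul_left _ h2
    _ = 20 * ((ff H P R2 - ff H P R) * ((bb H s + 19) / 20)) := by ring
    _ ≤ 20 * (P.length * bb H (R2 + (4 * k + 4) * R)) := Nat.mul_le_mul_left _ h1
    _ = _ := by ring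

/-- (F2), local form -/
lemma F2_local {D : ℕ} (hD : ∀ x y : V, y ∈ ball H x D) (hD' : ∀ r < D, bb H r < Fintype.card V)
    (P : List V) (hP : MaxP G P) (hDP : D + 1 ≤ P.length)
    (hs : 1 ≤ s) (hC : 1 ≤ C) (hdbl : bb H (4 * s) ≤ C * bb H s) (hR : 60 * C ^ 2 * s ≤ R) (h2R : 2 * R ≤ D)
    (hk : Fintype.card V * (30 * s) ^ k < R ^ (k + 1)) (r : ℕ) (hr : r ≤ s) (x : V)
    (hx : ∃ v ∈ P, v ∈ ball H x R) :
    (r + 1) * bb H s ≤ 256 * C ^ 2 * s *
      ((ball H x ((4 * k + 4) * R)).filter (fun z => ∃ v ∈ P, v ∈ ball H z r)).card := by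
  have hC2 : 1 ≤ C ^ 2 := Nat.one_le_pow _ _ hC
  have hCs : 1 ≤ C ^ 2 * s := Nat.mul_pos hC2 hs
  have e1 : 60 * C ^ 2 * s = 60 * (C ^ 2 * s) := by ring
  have e2 : s ≤ C ^ 2 * s := Nat.le_mul_of_pos_left _ hC2
  have hR1 : 60 * s ≤ R := by omega
  have hlR : R + R ≤ (4 * k + 4) * R := by nlinarith
  set Zc := ((ball H x ((4 * k + 4) * R)).filter (fun z => ∃ v ∈ P, v ∈ ball H z r)).card with hZc
  have hcZ : cnt H P x ((4 * k + 4) * R) ≤ Zc := by
    apply Finset.card_le_card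
    intro v hv
    simp only [Finset.mem_filter, List.mem_toFinset] at hv ⊢
    exact ⟨hv.2, v, hv.1, self_mem_ball H v r⟩
  have hr1 : r + 1 ≤ 2 * s := by omega
  rcases Nat.lt_or_ge (bb H s) (128 * C ^ 2 * s) with hb | hb
  · have h1 := cnt_start H P hP.isP x R R (by omega) hx
    have h2 := cnt_mono H P x hlR
    have h3 : s ≤ Zc := by omega
    calc (r + 1) * bb H s ≤ (2 * s) * (128 * C ^ 2 * s) := Nat.mul_le_mul hr1 hb.le
      _ = 256 * C ^ 2 * s * s := by ring
      _ ≤ _ := Nat.mul_le_mul_left _ h3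
  · obtain ⟨hμ2, hμ1, hμ3⟩ := mu_spec C s _ hC hs hb
    have hpar : Par H s C (bb H s / (64 * C ^ 2 * s)) := ⟨hs, hC, hdbl, hμ1⟩
    set μ := bb H s / (64 * C ^ 2 * s) with hμ
    by_contra hcon
    rw [not_le] at hcon
    have hne : ({y | y ∈ P} : Set V).Nonempty := by
      obtain ⟨y, hy⟩ := List.exists_mem_of_ne_nil P hP.isP.1
      exact ⟨y, hy⟩
    set ψ : V → ℕ := TopGroup.dst H {y | y ∈ P} with hψ
    have hψle : ∀ y t, ψ y ≤ t ↔ ∃ v ∈ P, v ∈ ball H y t := by
      intro y t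
      rw [hψ, TopGroup.dst_le_iff H hD hne]
      constructor
      · rintro ⟨v, hv, h⟩; exact ⟨v, hv, ball_symm H h⟩
      · rintro ⟨v, hv, h⟩; exact ⟨v, hv, ball_symm H h⟩
    -- a thin level
    obtain ⟨t, ht, htS⟩ : ∃ t < r + 1, 2 * cs (ball H x R) {y | ψ y = t} ≤ μ := by
      by_contra hall
      push Not at hall
      have h1 : ∑ t ∈ Finset.range (r + 1), cs (ball H x R) {y | ψ y = t} ≤ Zc := by
        unfold cs
        rw [← Finset.card_biUnion]
        · apply Finset.card_le_card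
          intro y hy
          simp only [Finset.mem_biUnion, Finset.mem_range, Finset.mem_filter, Set.mem_ofPred_eq] at hy ⊢
          obtain ⟨t, ht, hy1, hy2⟩ := hy
          exact ⟨ball_mono H x (by omega) hy1, (hψle y r).1 (by omega)⟩
        · intro i _ j _ hij
          rw [Function.onFun, Finset.disjoint_left]
          intro y hyi hyj
          simp only [Finset.mem_filter, Set.mem_ofPred_eq] at hyi hyj
          exact hij (hyi.2.symm.trans hyj.2)
      have h2 : (r + 1) * μ ≤ ∑ t ∈ Finset.range (r + 1), 2 * cs (ball H x R) {y | ψ y = t} := by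
        have : ∑ t ∈ Finset.range (r + 1), μ ≤ ∑ t ∈ Finset.range (r + 1), 2 * cs (ball H x R) {y | ψ y = t} := by
          apply Finset.sum_le_sum
          intro t ht
          exact (hall t (Finset.mem_range.1 ht)).le
        simpa using this
      rw [← Finset.mul_sum] at h2
      have h3 : (r + 1) * bb H s ≤ 256 * C ^ 2 * s * Zc := by
        calc (r + 1) * bb H s ≤ (r + 1) * (128 * C ^ 2 * s * μ) := Nat.mul_le_mul_left _ hμ3
          _ = 128 * C ^ 2 * s * ((r + 1) * μ) := by ring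
          _ ≤ 128 * C ^ 2 * s * (2 * Zc) := Nat.mul_le_mul_left _ (by omega)
          _ = _ := by ring
      omega
    have hK : ∀ u, BC G (ball H x (2 * s)) (bb H s) ((ball H x R : Set V) \ {y | ψ y = t}) u → u ∉ P := by
      intro u hu huP
      have huF := BC.mem (hpar.theta_le x) hu
      have hu0 : ψ u = 0 := TopGroup.dst_mem H huP
      have hut : ψ u ≠ t := huF.2
      have hsub : comp G ((ball H x R : Set V) \ {y | ψ y = t}) u ⊆ {y | ψ y < t} := by
        apply comp_sub_of_closed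
        · intro a ha b hb hab
          have h1 : ψ b ≤ ψ a + 1 := TopGroup.dst_adj H hD hne hab
          have h2 : ψ b ≠ t := hb.2
          have h3 : ψ a < t := ha
          change ψ b < t
          omega
        · change ψ u < t
          omega
      have hbig : 4 * ((ball H x (2 * s)).filter (fun y => ¬ ψ y < t)).card < bb H s := by
        unfold BC Big at hu
        refine lt_of_le_of_lt (Nat.mul_le_mul_left _ (Finset.card_le_card ?_)) hu
        intro y hy
        simp only [Finset.mem_filter] at hy ⊢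
        exact ⟨hy.1, fun h => hy.2 (hsub h)⟩
      have h4 := Finset.card_filter_add_card_filter_not (s := ball H x (2 * s)) (fun y => ψ y < t)
      have h5 := hpar.theta_le x
      have h6 : ((ball H x (2 * s)).filter (fun y => ψ y < t)).card ≤ Zc := by
        apply Finset.card_le_card
        intro y hy
        simp only [Finset.mem_filter] at hy ⊢
        exact ⟨ball_mono H x (by omega) hy.1, (hψle y r).1 (by omega)⟩
      have h7 : bb H s ≤ 2 * Zc := by omega
      have h8 : (r + 1) * bb H s ≤ 256 * C ^ 2 * s * Zc := by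
        calc (r + 1) * bb H s ≤ (2 * s) * (2 * Zc) := Nat.mul_le_mul hr1 h7
          _ = 4 * s * Zc := by ring
          _ ≤ 256 * C ^ 2 * s * Zc := by
              have : 4 * s ≤ 256 * C ^ 2 * s := by
                have e3 : 256 * C ^ 2 * s = 256 * (C ^ 2 * s) := by ring
                omega
              exact Nat.mul_le_mul_right _ this
      omega
    have h1 := main_lemma hpar hμ2 R k hR1 (hRC_of C s R hs hR) hk P hP (by omega) x
      (by obtain ⟨v, hv, h⟩ := hx; exact ⟨v, hv, ball_mono H x (by omega) h⟩)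
      (exists_dist H hD hD' x (R - 6 * s) (by omega) (by omega)) {y | ψ y = t} htS hK
    have h3 : μ * (60 * C ^ 2 * s) ≤ μ * R := Nat.mul_le_mul_left _ hR
    have e4 : μ * (60 * C ^ 2 * s) = 60 * (C ^ 2 * s * μ) := by ring
    have e5 : 128 * C ^ 2 * s * μ = 128 * (C ^ 2 * s * μ) := by ring
    have h7 : bb H s ≤ 20 * Zc := by omega
    have h8 : (r + 1) * bb H s ≤ 256 * C ^ 2 * s * Zc := by
      calc (r + 1) * bb H s ≤ (2 * s) * (20 * Zc) := Nat.mul_le_mul hr1 h7
        _ = 40 * s * Zc := by ring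
        _ ≤ 256 * C ^ 2 * s * Zc := by
            have : 40 * s ≤ 256 * C ^ 2 * s := by
              have e3 : 256 * C ^ 2 * s = 256 * (C ^ 2 * s) := by ring
              omega
            exact Nat.mul_le_mul_right _ this
    omega

/-- (F2) -/
theorem F2 {D : ℕ} (hD : ∀ x y : V, y ∈ ball H x D) (hD' : ∀ r < D, bb H r < Fintype.card V)
    (P : List V) (hP : MaxP G P) (hDP : D + 1 ≤ P.length)
    (s R r k C : ℕ) (hs : 1 ≤ s) (hC : 1 ≤ C) (hdbl : bb H (4 * s) ≤ C * bb H s) (hR : 60 * C ^ 2 * s ≤ R)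
    (h2R : 2 * R ≤ D) (hk : Fintype.card V * (30 * s) ^ k < R ^ (k + 1)) (hr : r ≤ s) :
    ff H P R * ((r + 1) * bb H s) ≤ 256 * C ^ 2 * s * ff H P r * bb H ((4 * k + 4) * R) := by
  have hC2 : 1 ≤ C ^ 2 := Nat.one_le_pow _ _ hC
  have hpos : 0 < 256 * C ^ 2 * s := by positivity
  set a := ((r + 1) * bb H s + (256 * C ^ 2 * s - 1)) / (256 * C ^ 2 * s) with ha
  have ha1 : (r + 1) * bb H s ≤ 256 * C ^ 2 * s * a := by
    have h1 := Nat.div_add_mod ((r + 1) * bb H s + (256 * C ^ 2 * s - 1)) (256 * C ^ 2 * s)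
    have h2 := Nat.mod_lt ((r + 1) * bb H s + (256 * C ^ 2 * s - 1)) hpos
    rw [← ha] at h1
    omega
  have h1 := count_near H P R r ((4 * k + 4) * R) a (by
    intro x hx
    have h2 := F2_local hD hD' P hP hDP hs hC hdbl hR h2R hk r hr x hx
    rw [ha, Nat.div_le_iff_le_mul_add_pred hpos]
    omega)
  calc ff H P R * ((r + 1) * bb H s) ≤ ff H P R * (256 * C ^ 2 * s * a) := Nat.mul_le_mul_left _ ha1
    _ = 256 * C ^ 2 * s * (ff H P R * a) := by ring
    _ ≤ 256 * C ^ 2 * s * (ff H P r * bb H ((4 * k + 4) * R)) := Nat.mul_le_mul_left _ h1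
    _ = _ := by ring

end Pool.Agent.Lib.MP_688fd0_co.LPV
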