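import Pool.Agent.Lib.MP_688fd0_co.LP.VT.Homog
import Pool.Agent.Lib.MP_688fd0_co.LP.Tangle

/-!
Section 3: local tangles; version of `LP/Local.lean` (helper81) for vertex-transitive graphs (helper20).
-/

set_option autoImplicit false
set_option linter.unusedSectionVars false

namespace Pool.Agent.Lib.MP_688fd0_co.LPV

open Classical Finset

open Pool.Agent.Lib.MP_688fd0_co.LP

variable {V : Type*} [Fintype V] [Nonempty V] {G : SimpleGraph V}

/-- The parameters `s`, `C`, `μ` of section 3. -/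
structure Par (H : Homog G) (s C μ : ℕ) : Prop where
  s1 : 1 ≤ s
  C1 : 1 ≤ C
  dbl : (bb H (4 * s)) ≤ C * (bb H s)
  mu : 64 * C ^ 2 * s * μ ≤ (bb H s)

variable {H : Homog G} {s C μ : ℕ}

lemma Par.theta_le (_h : Par H s C μ) (z : V) : (bb H s) ≤ (ball H z (2 * s)).card := by
  rw [card_ball]; exact b_mono H (by omega)

lemma Par.mu_lt (h : Par H s C μ) : 4 * μ < (bb H s) := by
  have h1 := h.mu
  have h2 := b_pos H s
  rcases Nat.eq_zero_or_pos μ with h0 | h0
  · subst h0; omega
  · have h3 : 64 * μ ≤ 64 * C ^ 2 * s * μ := by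
      have hC : 1 ≤ C ^ 2 := Nat.one_le_pow _ _ h.C1
      have : 64 * 1 * 1 * μ ≤ 64 * C ^ 2 * s * μ := by
        gcongr
        exact h.s1
      simpa using this
    omega

/-- dichotomy for closed sets -/
lemma dichotomy (h : Par H s C μ) (Ω Y : Set V) (z : V) (hΩ : ∀ y ∈ ball H z (6 * s), y ∈ Ω)
    (hY : ((ball H z (6 * s)).filter (fun y => y ∈ Y)).card ≤ μ) (W : Set V) (_hW : W ⊆ Ω \ Y)
    (hcl : ∀ u ∈ W, ∀ v ∈ Ω \ Y, G.Adj u v → v ∈ W) :
    4 * ((ball H z (2 * s)).filter (fun v => v ∈ W)).card < (bb H s) ∨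
      Big (ball H z (2 * s)) (bb H s) W := by
  have h1 := rel_iso H W z (2 * s)
  rw [show 3 * (2 * s) = 6 * s by ring] at h1
  have h2 : ((ball H z (6 * s)).filter (fun y => y ∈ nb G W)).card ≤ μ := by
    refine (Finset.card_le_card ?_).trans hY
    intro y hy
    simp only [Finset.mem_filter] at hy ⊢
    refine ⟨hy.1, ?_⟩
    by_contra hyY
    obtain ⟨hyW, u, hu, hadj⟩ := hy.2
    exact hyW (hcl u hu y ⟨hΩ y hy.1, hyY⟩ hadj)
  set a := ((ball H z (2 * s)).filter (fun u => u ∈ W)).card with ha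
  set b := ((ball H z (2 * s)).filter (fun u => u ∉ W)).card with hb
  set θ := (bb H s) with hθ
  have hab : θ ≤ a + b := by
    have := Finset.card_filter_add_card_filter_not (s := ball H z (2 * s)) (fun u => u ∈ W)
    rw [← ha, ← hb] at this
    rw [this]; exact h.theta_le z
  have hθ1 : 1 ≤ θ := b_pos H s
  have h3 : 16 * (a * b) ≤ θ * θ := by
    have hb4 : (bb H (2 * (2 * s))) ≤ C * θ := by
      rw [show 2 * (2 * s) = 4 * s by ring]; exact h.dbl
    calc 16 * (a * b) ≤ 16 * (2 * (2 * s) * (bb H (2 * (2 * s))) *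
          ((ball H z (6 * s)).filter (fun y => y ∈ nb G W)).card) := Nat.mul_le_mul_left _ h1
      _ ≤ 16 * (2 * (2 * s) * (C * θ) * μ) := by gcongr
      _ = (64 * C * s * μ) * θ := by ring
      _ ≤ (64 * C ^ 2 * s * μ) * θ := by
          have : C ≤ C ^ 2 := by
            calc C = C * 1 := by ring
              _ ≤ C * C := Nat.mul_le_mul_left _ h.C1
              _ = C ^ 2 := by ring
          gcongr
      _ ≤ θ * θ := Nat.mul_le_mul_right _ h.mu
  by_contra hcon
  rw [not_or] at hcon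
  obtain ⟨hc1, hc2⟩ := hcon
  unfold Big at hc2
  rw [not_lt] at hc1 hc2
  have hc1' : θ ≤ 4 * a := hc1
  have hc2' : θ ≤ 4 * b := hc2
  have h4 : θ ≤ 2 * a ∨ θ ≤ 2 * b := by omega
  rcases h4 with h4 | h4
  · have : θ * θ ≤ (2 * a) * (4 * b) := Nat.mul_le_mul h4 hc2'
    nlinarith
  · have : θ * θ ≤ (4 * a) * (2 * b) := Nat.mul_le_mul hc1' h4
    nlinarith

lemma Big_compl (h : Par H s C μ) (Ω Y : Set V) (z : V) (hΩ : ∀ y ∈ ball H z (6 * s), y ∈ Ω)
    (hY : ((ball H z (6 * s)).filter (fun y => y ∈ Y)).card ≤ μ) :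
    Big (ball H z (2 * s)) (bb H s) (Ω \ Y) := by
  unfold Big
  refine lt_of_le_of_lt (Nat.mul_le_mul_left 4 ?_) h.mu_lt
  refine (Finset.card_le_card ?_).trans hY
  intro y hy
  simp only [Finset.mem_filter] at hy ⊢
  have hy6 : y ∈ ball H z (6 * s) := ball_mono H z (by omega) hy.1
  refine ⟨hy6, ?_⟩
  by_contra hyY
  exact hy.2 ⟨hΩ y hy6, hyY⟩

/-- existence of a big component -/
lemma local_exists (h : Par H s C μ) (Ω Y : Set V) (z : V) (hΩ : ∀ y ∈ ball H z (6 * s), y ∈ Ω)
    (hY : ((ball H z (6 * s)).filter (fun y => y ∈ Y)).card ≤ μ) :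
    ∃ u, BC G (ball H z (2 * s)) (bb H s) (Ω \ Y) u :=
  exists_big G _ _ (h.theta_le z) _ (fun W hW hcl => dichotomy h Ω Y z hΩ hY W hW hcl)
    (Big_compl h Ω Y z hΩ hY)

/-- propagation of bigness -/
lemma propagate (h : Par H s C μ) (Ω Y : Set V) (z z' : V) (hz : z' ∈ ball H z s)
    (hΩ : ∀ y ∈ ball H z' (6 * s), y ∈ Ω)
    (hY : ((ball H z' (6 * s)).filter (fun y => y ∈ Y)).card ≤ μ) (u : V)
    (hu : BC G (ball H z (2 * s)) (bb H s) (Ω \ Y) u) :
    BC G (ball H z' (2 * s)) (bb H s) (Ω \ Y) u := by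
  rcases dichotomy h Ω Y z' hΩ hY (comp G (Ω \ Y) u) comp_sub
    (fun a ha b hb hab => comp_closed ha hb hab) with h1 | h1
  · exfalso
    unfold BC Big at hu
    set M := comp G (Ω \ Y) u
    have hsub : ball H z' s ⊆ (ball H z' (2 * s)).filter (fun v => v ∈ M) ∪
        (ball H z (2 * s)).filter (fun v => v ∉ M) := by
      intro y hy
      simp only [Finset.mem_union, Finset.mem_filter]
      by_cases hyM : y ∈ M
      · left; exact ⟨ball_mono H z' (by omega) hy, hyM⟩
      · right; exact ⟨by rw [two_mul]; exact ball_trans hz hy, hyM⟩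
    have h2 := (Finset.card_le_card hsub).trans (Finset.card_union_le _ _)
    rw [card_ball] at h2
    omega
  · exact h1

/-- in a ball with few blocked vertices bigness does not depend on the centre -/
lemma big_iff (h : Par H s C μ) (x : V) (ρ : ℕ) (Y : Set V)
    (hY : ((ball H x ρ).filter (fun y => y ∈ Y)).card ≤ μ) (u : V) (j : ℕ) (hj : j + 6 * s ≤ ρ) (z : V)
    (hz : z ∈ ball H x j) :
    BC G (ball H x (2 * s)) (bb H s) ((ball H x ρ : Set V) \ Y) u ↔
    BC G (ball H z (2 * s)) (bb H s) ((ball H x ρ : Set V) \ Y) u := by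
  induction j generalizing z with
  | zero =>
    have : z = x := (mem_zero.1 hz).symm
    rw [this]
  | succ j ih =>
    obtain ⟨z', hz', hzz'⟩ := ball_split hz
    rw [ih (by omega) z' hz']
    have hs := h.s1
    have hin : ∀ w : V, w ∈ ball H x (j + 1) → ∀ y ∈ ball H w (6 * s), y ∈ ball H x ρ := by
      intro w hw y hy
      exact ball_trans' H hw hy (by omega)
    have hcount : ∀ w : V, w ∈ ball H x (j + 1) →
        ((ball H w (6 * s)).filter (fun y => y ∈ Y)).card ≤ μ := by
      intro w hw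
      refine (Finset.card_le_card ?_).trans hY
      intro y hy
      simp only [Finset.mem_filter] at hy ⊢
      exact ⟨hin w hw y hy.1, hy.2⟩
    have hz'2 : z' ∈ ball H x (j + 1) := ball_mono H x (by omega) hz'
    constructor
    · intro hb
      exact propagate h _ Y z' z (ball_mono H z' hs hzz') (fun y hy => hin z hz y hy)
        (hcount z hz) u hb
    · intro hb
      exact propagate h _ Y z z' (ball_mono H z hs (ball_symm H hzz')) (fun y hy => hin z' hz'2 y hy)
        (hcount z' hz'2) u hb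

/-- the complement of the big component is small -/
lemma rest_small (h : Par H s C μ) (x : V) (ρ : ℕ) (Y : Set V)
    (hY : ((ball H x (ρ + 7 * s)).filter (fun y => y ∈ Y)).card ≤ μ) (u : V)
    (hu : BC G (ball H x (2 * s)) (bb H s) ((ball H x (ρ + 7 * s) : Set V) \ Y) u) :
    ((ball H x ρ).filter (fun y => y ∉ comp G ((ball H x (ρ + 7 * s) : Set V) \ Y) u)).card ≤
      3 * C ^ 2 * s * ((ball H x (ρ + 7 * s)).filter (fun y => y ∈ Y)).card := by
  set M := comp G ((ball H x (ρ + 7 * s) : Set V) \ Y) u with hM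
  set θ := (bb H s) with hθ
  have hθ1 : 1 ≤ θ := b_pos H s
  have hs := h.s1
  -- local estimate
  have hloc : ∀ z ∈ ball H x (ρ + s), 3 * ((ball H z s).filter (fun y => y ∉ M)).card ≤
      8 * s * C * ((ball H z (3 * s)).filter (fun y => y ∈ Y)).card := by
    intro z hz
    have hbz : BC G (ball H z (2 * s)) θ ((ball H x (ρ + 7 * s) : Set V) \ Y) u :=
      (big_iff h x (ρ + 7 * s) Y hY u (ρ + s) (by omega) z hz).1 hu
    have h1 := rel_iso H M z s
    have h2 : ((ball H z (3 * s)).filter (fun y => y ∈ nb G M)).card ≤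
        ((ball H z (3 * s)).filter (fun y => y ∈ Y)).card := by
      apply Finset.card_le_card
      intro y hy
      simp only [Finset.mem_filter] at hy ⊢
      refine ⟨hy.1, ?_⟩
      by_contra hyY
      obtain ⟨hyM, v, hv, hadj⟩ := hy.2
      apply hyM
      refine comp_closed hv ⟨?_, hyY⟩ hadj
      exact ball_trans' H hz hy.1 (by omega)
    have h3 : 4 * ((ball H z s).filter (fun y => y ∉ M)).card < θ := by
      unfold BC Big at hbz
      refine lt_of_le_of_lt (Nat.mul_le_mul_left _ (Finset.card_le_card ?_)) hbz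
      exact Finset.filter_subset_filter _ (ball_mono H z (by omega))
    have h4 := Finset.card_filter_add_card_filter_not (s := ball H z s) (fun y => y ∈ M)
    rw [card_ball, ← hθ] at h4
    have h5 : 3 * θ ≤ 4 * ((ball H z s).filter (fun y => y ∈ M)).card := by omega
    have h6 : (bb H (2 * s)) ≤ C * θ := (b_mono H (by omega)).trans h.dbl
    have h7 : θ * (3 * ((ball H z s).filter (fun y => y ∉ M)).card) ≤
        θ * (8 * s * C * ((ball H z (3 * s)).filter (fun y => y ∈ Y)).card) := by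
      calc θ * (3 * ((ball H z s).filter (fun y => y ∉ M)).card)
          = (3 * θ) * ((ball H z s).filter (fun y => y ∉ M)).card := by ring
        _ ≤ (4 * ((ball H z s).filter (fun y => y ∈ M)).card) *
            ((ball H z s).filter (fun y => y ∉ M)).card := Nat.mul_le_mul_right _ h5
        _ = 4 * (((ball H z s).filter (fun y => y ∈ M)).card *
            ((ball H z s).filter (fun y => y ∉ M)).card) := by ring
        _ ≤ 4 * (2 * s * (bb H (2 * s)) * ((ball H z (3 * s)).filter (fun y => y ∈ nb G M)).card) :=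
            Nat.mul_le_mul_left _ h1
        _ ≤ 4 * (2 * s * (C * θ) * ((ball H z (3 * s)).filter (fun y => y ∈ Y)).card) := by gcongr
        _ = _ := by ring
    exact Nat.le_of_mul_le_mul_left h7 hθ1
  -- double counting
  have hL : θ * ((ball H x ρ).filter (fun y => y ∉ M)).card ≤
      ∑ z ∈ ball H x (ρ + s), ((ball H z s).filter (fun y => y ∉ M)).card := by
    have : ∑ y ∈ (ball H x ρ).filter (fun y => y ∉ M), (ball H y s).card ≤
        ∑ z ∈ ball H x (ρ + s), ((ball H z s).filter (fun y => y ∉ M)).card := by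
      rw [← Finset.card_sigma, ← Finset.card_sigma]
      apply Finset.card_le_card_of_injOn (fun p => (⟨p.2, p.1⟩ : (_ : V) × V))
      · rintro ⟨y, z⟩ hyz
        simp only [Finset.coe_sigma, Set.mem_sigma_iff, Finset.mem_coe, Finset.mem_filter] at hyz ⊢
        exact ⟨ball_trans hyz.1.1 hyz.2, ball_symm H hyz.2, hyz.1.2⟩
      · rintro ⟨y, z⟩ _ ⟨y', z'⟩ _ heq
        simp only [Sigma.mk.injEq, heq_eq_eq] at heq ⊢
        exact ⟨heq.2, heq.1⟩
    refine le_trans ?_ this
    simp only [card_ball]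
    rw [Finset.sum_const, smul_eq_mul, mul_comm]
  have hR : ∑ z ∈ ball H x (ρ + s), ((ball H z (3 * s)).filter (fun y => y ∈ Y)).card ≤
      (C * θ) * ((ball H x (ρ + 7 * s)).filter (fun y => y ∈ Y)).card := by
    have : ∑ z ∈ ball H x (ρ + s), ((ball H z (3 * s)).filter (fun y => y ∈ Y)).card ≤
        ∑ y ∈ (ball H x (ρ + 7 * s)).filter (fun y => y ∈ Y), (ball H y (3 * s)).card := by
      rw [← Finset.card_sigma, ← Finset.card_sigma]
      apply Finset.card_le_card_of_injOn (fun p => (⟨p.2, p.1⟩ : (_ : V) × V))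
      · rintro ⟨z, y⟩ hyz
        simp only [Finset.coe_sigma, Set.mem_sigma_iff, Finset.mem_coe, Finset.mem_filter] at hyz ⊢
        exact ⟨⟨ball_trans' H hyz.1 hyz.2.1 (by omega), hyz.2.2⟩, ball_symm H hyz.2.1⟩
      · rintro ⟨y, z⟩ _ ⟨y', z'⟩ _ heq
        simp only [Sigma.mk.injEq, heq_eq_eq] at heq ⊢
        exact ⟨heq.2, heq.1⟩
    refine this.trans ?_
    simp only [card_ball]
    rw [Finset.sum_const, smul_eq_mul, mul_comm]
    exact Nat.mul_le_mul_right _ ((b_mono H (by omega)).trans h.dbl)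
  have hfin : θ * (3 * ((ball H x ρ).filter (fun y => y ∉ M)).card) ≤
      θ * (8 * C ^ 2 * s * ((ball H x (ρ + 7 * s)).filter (fun y => y ∈ Y)).card) := by
    calc θ * (3 * ((ball H x ρ).filter (fun y => y ∉ M)).card)
        = 3 * (θ * ((ball H x ρ).filter (fun y => y ∉ M)).card) := by ring
      _ ≤ 3 * ∑ z ∈ ball H x (ρ + s), ((ball H z s).filter (fun y => y ∉ M)).card :=
          Nat.mul_le_mul_left _ hL
      _ = ∑ z ∈ ball H x (ρ + s), 3 * ((ball H z s).filter (fun y => y ∉ M)).card := by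
          rw [Finset.mul_sum]
      _ ≤ ∑ z ∈ ball H x (ρ + s), 8 * s * C * ((ball H z (3 * s)).filter (fun y => y ∈ Y)).card :=
          Finset.sum_le_sum hloc
      _ = 8 * s * C * ∑ z ∈ ball H x (ρ + s), ((ball H z (3 * s)).filter (fun y => y ∈ Y)).card := by
          rw [Finset.mul_sum]
      _ ≤ 8 * s * C * ((C * θ) * ((ball H x (ρ + 7 * s)).filter (fun y => y ∈ Y)).card) :=
          Nat.mul_le_mul_left _ hR
      _ = _ := by ring
  have hfin' := Nat.le_of_mul_le_mul_left hfin hθ1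
  have : 3 * ((ball H x ρ).filter (fun y => y ∉ M)).card ≤
      3 * (3 * C ^ 2 * s * ((ball H x (ρ + 7 * s)).filter (fun y => y ∈ Y)).card) := by
    refine hfin'.trans ?_
    nlinarith [Nat.zero_le (C ^ 2 * s * ((ball H x (ρ + 7 * s)).filter (fun y => y ∈ Y)).card)]
  omega

end Pool.Agent.Lib.MP_688fd0_co.LPV
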