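import Pool.Agent.Lib.MP_688fd0_co.LP.VT.Local
import Pool.Agent.Lib.MP_688fd0_co.LP.ConnBasic
import Pool.Agent.Lib.MP_688fd0_co.LP.Menger
import Pool.Agent.Lib.MP_688fd0_co.LP.Reroute

/-!
Section 4: the main lemma; version of `LP/Main.lean` (helper81) for vertex-transitive graphs (helper20).
-/

set_option autoImplicit false
set_option linter.unusedSectionVars false

namespace Pool.Agent.Lib.MP_688fd0_co.LPV

open Classical Finset

open Pool.Agent.Lib.MP_688fd0_co.LP

variable {V : Type*} [Fintype V] [Nonempty V] {G : SimpleGraph V} {H : Homog G}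

/-- number of vertices of `P` in the ball of radius `r` about `x` -/
noncomputable def cnt (H : Homog G) (P : List V) (x : V) (r : ℕ) : ℕ :=
  (P.toFinset.filter (fun v => v ∈ ball H x r)).card

lemma cnt_mono (H : Homog G) (P : List V) (x : V) {r r' : ℕ} (h : r ≤ r') : cnt H P x r ≤ cnt H P x r' := by
  apply Finset.card_le_card
  intro v hv
  simp only [Finset.mem_filter] at hv ⊢
  exact ⟨hv.1, ball_mono H x h hv.2⟩

lemma cnt_le (P : List V) (x : V) (r : ℕ) : cnt H P x r ≤ Fintype.card V := by
  unfold cnt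
  exact Finset.card_le_univ _

/-- vertices of a path at small positions are near -/
lemma chain_ball (H : Homog G) (l : List V) (hl : l.IsChain G.Adj) (a b : ℕ) (hab : a ≤ b)
    (hb : b < l.length) : l[b] ∈ ball H (l[a]'(by omega)) (b - a) := by
  induction b with
  | zero =>
    have : a = 0 := by omega
    subst this
    exact self_mem_ball H _ _
  | succ b ih =>
    rcases Nat.lt_or_ge a (b + 1) with h | h
    · have h1 := ih (by omega) (by omega)
      have h2 : G.Adj (l[b]'(by omega)) (l[b + 1]'hb) := by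
        have := List.isChain_iff_getElem.1 hl b (by omega)
        exact this
      have h3 := ball_adj H h1 h2
      have : b - a + 1 = b + 1 - a := by omega
      rwa [this] at h3
    · have : a = b + 1 := by omega
      subst this
      exact self_mem_ball H _ _

/-- a path through a far vertex is long -/
lemma long_of_far (H : Homog G) (l : List V) (w1 w2 u : V) (hl : IsPB G l w1 w2) (hu : u ∈ l) (t : ℕ)
    (hfar : u ∉ ball H w1 t) : t + 2 ≤ l.length := by
  obtain ⟨j, hj, rfl⟩ := List.getElem_of_mem hu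
  have h0 : l[0]'(by omega) = w1 := by
    have := hl.2.1
    rw [List.head?_eq_getElem?] at this
    rw [List.getElem?_eq_getElem (by omega)] at this
    simpa using this
  have h1 := chain_ball H l hl.1.2.1 0 j (by omega) hj
  rw [h0] at h1
  by_contra hcon
  apply hfar
  exact ball_mono H w1 (by omega) h1

/-- a long path that meets a ball has many vertices in the larger ball -/
lemma cnt_start (H : Homog G) (P : List V) (hP : IsP G P) (x : V) (R r : ℕ) (hPR : 2 * R ≤ P.length)
    (hx : ∃ v ∈ P, v ∈ ball H x r) : R ≤ cnt H P x (r + R) := by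
  obtain ⟨v, hv, hvx⟩ := hx
  obtain ⟨j, hj, rfl⟩ := List.getElem_of_mem hv
  obtain ⟨hne, hch, hnd⟩ := hP
  unfold cnt
  -- choose a window of R consecutive positions at distance < R from j
  have hwin : ∃ a, a + R ≤ P.length ∧ (∀ i, i < R → (a + i ≤ j ∧ j - (a + i) ≤ R ∨ j ≤ a + i ∧ a + i - j ≤ R)) := by
    rcases Nat.lt_or_ge P.length (j + R) with h | h
    · refine ⟨j - R, by omega, ?_⟩
      intro i hi
      left; omega
    · refine ⟨j, h, ?_⟩
      intro i hi
      right; omega
  obtain ⟨a, ha, hwin⟩ := hwin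
  have hinj : Set.InjOn (fun i => if h : i < R then P[a + i]'(by omega) else P[0]'(by omega)) (↑(Finset.range R) : Set ℕ) := by
    intro i hi i' hi' heq
    simp only [Finset.coe_range, Set.mem_Iio] at hi hi'
    simp only [hi, hi', dif_pos] at heq
    have := (List.Nodup.getElem_inj_iff hnd).1 heq
    omega
  have := Finset.card_le_card_of_injOn (s := Finset.range R)
    (t := P.toFinset.filter (fun v => v ∈ ball H x (r + R)))
    (fun i => if h : i < R then P[a + i]'(by omega) else P[0]'(by omega)) ?_ hinj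
  · simpa using this
  · intro i hi
    simp only [Finset.coe_range, Set.mem_Iio] at hi
    simp only [hi, dif_pos, Finset.coe_filter, Set.mem_ofPred_eq, List.mem_toFinset]
    refine ⟨List.getElem_mem _, ?_⟩
    refine ball_trans hvx ?_
    rcases hwin i hi with ⟨h1, h2⟩ | ⟨h1, h2⟩
    · have := chain_ball H P hch (a + i) j h1 hj
      exact ball_mono H _ h2 (ball_symm H this)
    · have := chain_ball H P hch j (a + i) h1 (by omega)
      exact ball_mono H _ h2 this

variable {s C μ : ℕ}

/-- the block of `ball x R \ S` -/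
def beta (H : Homog G) (s : ℕ) (x : V) (R : ℕ) (S : Set V) : Set V :=
  Block G (ball H x (2 * s)) (bb H s) ((ball H x R : Set V) \ S)

/-- number of elements of `A` in `S` (with the classical decidability instance) -/
noncomputable def cs (A : Finset V) (S : Set V) : ℕ := (A.filter (fun y => y ∈ S)).card

lemma cs_mono {A A' : Finset V} (h : A ⊆ A') (S : Set V) : cs A S ≤ cs A' S :=
  Finset.card_le_card (Finset.filter_subset_filter _ h)

lemma cs_union_le (A : Finset V) (S X : Set V) : cs A (S ∪ X) ≤ cs A S + cs A X := by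
  unfold cs
  refine le_trans (Finset.card_le_card ?_) (Finset.card_union_le _ _)
  intro y hy
  simp only [Finset.mem_filter, Finset.mem_union, Set.mem_union] at hy ⊢
  rcases hy.2 with h | h
  · left; exact ⟨hy.1, h⟩
  · right; exact ⟨hy.1, h⟩

lemma cs_single_le (A : Finset V) (v : V) : cs A {v} ≤ 1 := by
  unfold cs
  rw [Finset.card_le_one]
  intro a ha b hb
  simp only [Finset.mem_filter, Set.mem_singleton_iff] at ha hb
  rw [ha.2, hb.2]

lemma cs_le_card (A : Finset V) (X : Finset V) : cs A (X : Set V) ≤ X.card := by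
  unfold cs
  apply Finset.card_le_card
  intro y hy
  simp only [Finset.mem_filter] at hy
  exact_mod_cast hy.2

/-- existence of the big component of a small ball minus `S ∪ X`, seen from the centre -/
lemma exists_BC (h : Par H s C μ) (x : V) (R : ℕ) (hR : 6 * s ≤ R) (S X : Set V)
    (hSX : cs (ball H x R) S + cs (ball H x R) X ≤ μ) :
    ∃ u, BC G (ball H x (2 * s)) (bb H s) (((ball H x R : Set V) \ S) \ X) u := by
  rw [Set.sdiff_sdiff]
  apply local_exists h
  · intro y hy; exact ball_mono H x hR hy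
  · refine le_trans ?_ hSX
    refine le_trans ?_ (cs_union_le _ _ _)
    exact cs_mono (ball_mono H x hR) _

/-- the block is hit by every big component -/
lemma beta_hit (h : Par H s C μ) (hμ : 2 ≤ μ) (x : V) (R : ℕ) (hR : 6 * s ≤ R) (S X : Set V)
    (hS : 2 * cs (ball H x R) S ≤ μ) (hX : 2 * cs (ball H x R) X ≤ μ) :
    ∃ w ∈ beta H s x R S, BC G (ball H x (2 * s)) (bb H s) (((ball H x R : Set V) \ S) \ X) w := by
  apply block_hit
  · exact h.theta_le x
  · intro v
    apply exists_BC h x R hR S {v}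
    have := cs_single_le (ball H x R) v
    omega
  · apply exists_BC h x R hR S X
    omega

/-- blocks of small balls inside are contained in the big block -/
lemma beta_local (h : Par H s C μ) (hμ : 2 ≤ μ) (x : V) (R : ℕ) (S : Set V)
    (hS : 2 * cs (ball H x R) S ≤ μ) (y : V) (j : ℕ) (hj : j + 6 * s ≤ R)
    (hy : y ∈ ball H x j) : ∃ w ∈ beta H s x R S, w ∈ ball H y (6 * s) := by
  have hsub : ball H y (6 * s) ⊆ ball H x R := fun z hz => ball_trans' H hy hz hj
  have hS' : 2 * cs (ball H y (6 * s)) S ≤ μ :=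
    le_trans (Nat.mul_le_mul_left _ (cs_mono hsub S)) hS
  obtain ⟨w, hw, hwB⟩ := beta_hit h hμ y (6 * s) le_rfl S ∅ hS' (by simp [cs])
  refine ⟨w, ?_, ?_⟩
  · intro v hv
    have h1 : BC G (ball H y (2 * s)) (bb H s) (((ball H x R : Set V) \ S) \ {v}) w := by
      refine BC.mono ?_ (hw v hv)
      intro z hz
      exact ⟨⟨hsub hz.1.1, hz.1.2⟩, hz.2⟩
    rw [Set.sdiff_sdiff] at h1 ⊢
    refine (big_iff h x R (S ∪ {v}) ?_ w j hj y hy).2 h1
    have h2 := cs_union_le (ball H x R) S {v}
    have h3 := cs_single_le (ball H x R) v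
    change cs (ball H x R) (S ∪ {v}) ≤ μ
    omega
  · have := BC.mem (h.theta_le y) hwB
    exact this.1.1

/-- any two vertices of the block are joined by a long path inside the block -/
lemma beta_long (h : Par H s C μ) (hμ : 2 ≤ μ) (x : V) (R : ℕ) (hR : 54 * s + 1 ≤ R) (S : Set V)
    (hS : 2 * cs (ball H x R) S ≤ μ)
    (hy : ∃ y ∈ ball H x (R - 6 * s), y ∉ ball H x (R - 6 * s - 1)) (w1 w2 : V)
    (hw1 : w1 ∈ beta H s x R S) (hw2 : w2 ∈ beta H s x R S) (h12 : w1 ≠ w2) :
    ∃ l, IsPB G l w1 w2 ∧ (∀ z ∈ l, z ∈ beta H s x R S) ∧ (R + 2) / 3 + 1 ≤ l.length := by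
  have hs := h.s1
  set t := (R + 2) / 3 with ht
  have hBC : ∀ w ∈ beta H s x R S, BC G (ball H x (2 * s)) (bb H s) ((ball H x R : Set V) \ S) w := by
    intro w hw
    have : ∃ v, v ≠ w := by
      rcases eq_or_ne w w1 with h' | h'
      · exact ⟨w2, by rw [h']; exact h12.symm⟩
      · exact ⟨w1, h'.symm⟩
    obtain ⟨v, hv⟩ := this
    exact BC.mono (Set.sdiff_subset) (hw v hv)
  -- a far vertex of the block
  have hfar : ∃ u ∈ beta H s x R S, u ∉ ball H w1 (t - 1) := by
    by_contra hcon
    push Not at hcon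
    obtain ⟨y, hy1, hy2⟩ := hy
    obtain ⟨u1, hu1, hu1'⟩ := beta_local h hμ x R S hS x 0 (by omega) (self_mem_ball H x 0)
    obtain ⟨u2, hu2, hu2'⟩ := beta_local h hμ x R S hS y (R - 6 * s) (by omega) hy1
    apply hy2
    have e1 : w1 ∈ ball H x (6 * s + (t - 1)) := ball_trans hu1' (ball_symm H (hcon u1 hu1))
    have e2 : u2 ∈ ball H x (6 * s + (t - 1) + (t - 1)) := ball_trans e1 (hcon u2 hu2)
    have e3 : y ∈ ball H x (6 * s + (t - 1) + (t - 1) + 6 * s) := ball_trans e2 (ball_symm H hu2')
    exact ball_mono H x (by omega) e3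
  obtain ⟨u, hu, hufar⟩ := hfar
  have hu1 : w1 ≠ u := by
    rintro rfl
    exact hufar (self_mem_ball H _ _)
  rcases eq_or_ne w2 u with h2 | h2
  · have hc := BC.conn (h.theta_le x) (hBC w1 hw1) (hBC w2 hw2)
    obtain ⟨l, hl, hlF⟩ := hc.exists_path
    refine ⟨l, hl, block_path G _ _ (h.theta_le x) _ hl hlF h12 hw1 hw2, ?_⟩
    have := long_of_far H l w1 w2 u hl (by rw [← h2]; exact hl.last_mem) (t - 1) hufar
    omega
  · obtain ⟨l, hl, hlB, hul⟩ := block_fan G (ball H x (2 * s)) (bb H s) (h.theta_le x) _ hw1 hw2 hu h12 hu1 h2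
    refine ⟨l, hl, hlB, ?_⟩
    have := long_of_far H l w1 w2 u hl hul (t - 1) hufar
    omega

/-- a linkage has at most `|V|` paths -/
lemma linkage_le {G : SimpleGraph V} {F A B : Set V} {m : ℕ} {Q : Fin m → List V}
    (hQ : Linkage G F A B m Q) : m ≤ Fintype.card V := by
  obtain ⟨h1, h2⟩ := hQ
  have hh : ∀ i, ∃ a, a ∈ Q i := by
    intro i
    have := (h1 i).1.1
    exact List.exists_mem_of_ne_nil _ this
  choose f hf using hh
  have hinj : Function.Injective f := by
    intro i j hij
    by_contra hne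
    exact h2 i j hne (hf i) (by rw [hij]; exact hf j)
  simpa using Fintype.card_le_of_injective f hinj

/-- growth of a sequence: Bernoulli in the form `2 * (4s)^(4s) ≤ (4s+1)^(4s)` -/
lemma two_mul_pow_le (a : ℕ) (ha : 1 ≤ a) : 2 * a ^ a ≤ (a + 1) ^ a := by
  have h : (1 : ℝ) + (a : ℝ) * (1 / (a : ℝ)) ≤ (1 + 1 / (a : ℝ)) ^ a :=
    one_add_mul_le_pow (by
      have : (0 : ℝ) ≤ 1 / (a : ℝ) := by positivity
      linarith) a
  have ha0 : (0 : ℝ) < a := by exact_mod_cast ha
  have h2 : (2 : ℝ) ≤ (1 + 1 / (a : ℝ)) ^ a := by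
    have : (a : ℝ) * (1 / (a : ℝ)) = 1 := by field_simp
    linarith
  have h3 : (2 : ℝ) * (a : ℝ) ^ a ≤ ((a : ℝ) + 1) ^ a := by
    have : ((a : ℝ) + 1) ^ a = (1 + 1 / (a : ℝ)) ^ a * (a : ℝ) ^ a := by
      rw [← mul_pow]; congr 1; field_simp
    rw [this]
    gcongr
  exact_mod_cast h3

/-- if a sequence grows by the factor `1 + 1/a` in each of `R` steps, it grows by `2 ^ (R / a)` -/
lemma growth_seq (a : ℕ) (ha : 1 ≤ a) (u : ℕ → ℕ) (R : ℕ) (h : ∀ j < R, (a + 1) * u j ≤ a * u (j + 1)) :
    2 ^ (R / a) * u 0 ≤ u R := by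
  have h1 : ∀ i, i ≤ R → (a + 1) ^ i * u 0 ≤ a ^ i * u i := by
    intro i
    induction i with
    | zero => simp
    | succ i ih =>
      intro hi
      have h2 := ih (by omega)
      have h3 := h i (by omega)
      calc (a + 1) ^ (i + 1) * u 0 = (a + 1) * ((a + 1) ^ i * u 0) := by ring
        _ ≤ (a + 1) * (a ^ i * u i) := Nat.mul_le_mul_left _ h2
        _ = a ^ i * ((a + 1) * u i) := by ring
        _ ≤ a ^ i * (a * u (i + 1)) := Nat.mul_le_mul_left _ h3
        _ = _ := by ring
  have h4 : ∀ q, a * q ≤ R → 2 ^ q * u 0 ≤ u (a * q) := by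
    intro q hq
    have h5 := h1 (a * q) hq
    have h6 : (2 * a ^ a) ^ q ≤ ((a + 1) ^ a) ^ q := Nat.pow_le_pow_left (two_mul_pow_le a ha) q
    have h7 : a ^ (a * q) * (2 ^ q * u 0) ≤ a ^ (a * q) * u (a * q) := by
      calc a ^ (a * q) * (2 ^ q * u 0) = (2 * a ^ a) ^ q * u 0 := by rw [mul_pow, ← pow_mul]; ring
        _ ≤ ((a + 1) ^ a) ^ q * u 0 := Nat.mul_le_mul_right _ h6
        _ = (a + 1) ^ (a * q) * u 0 := by rw [← pow_mul]
        _ ≤ _ := h5
    exact Nat.le_of_mul_le_mul_left h7 (by positivity)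
  have hmono : ∀ i j, i ≤ j → j ≤ R → u i ≤ u j := by
    intro i j hij
    induction j with
    | zero => intro _; have : i = 0 := by omega
              rw [this]
    | succ j ih =>
      intro hj
      rcases Nat.lt_or_ge i (j + 1) with h' | h'
      · refine (ih (by omega) (by omega)).trans ?_
        have h8 := h j (by omega)
        have h9 : a * u j ≤ a * u (j + 1) := le_trans (Nat.mul_le_mul_right _ (by omega)) h8
        exact Nat.le_of_mul_le_mul_left h9 (by omega)
      · have : i = j + 1 := by omega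
        rw [this]
  exact (h4 (R / a) (Nat.mul_div_le R a)).trans (hmono _ _ (Nat.mul_div_le R a) le_rfl)

/-- the basic dichotomy of section 4 -/
lemma step (h : Par H s C μ) (hμ : 2 ≤ μ) (R : ℕ) (hR60 : 60 * s ≤ R) (hRC : C ^ 2 ≤ 2 ^ (R / (4 * s)))
    (P : List V) (hP : MaxP G P) (x : V)
    (hy : ∃ y ∈ ball H x (R - 6 * s), y ∉ ball H x (R - 6 * s - 1))
    (S : Set V) (hS : 2 * cs (ball H x R) S ≤ μ)
    (hK : ∀ u, BC G (ball H x (2 * s)) (bb H s) ((ball H x R : Set V) \ S) u → u ∉ P)
    (ρ : ℕ) (hρ : R ≤ ρ) (ha : R ≤ cnt H P x ρ) :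
    μ * R ≤ 9 * cnt H P x (ρ + 4 * R) ∨ R * cnt H P x ρ ≤ 30 * s * cnt H P x (ρ + 4 * R) := by
  have hs := h.s1
  have hC2 : 1 ≤ C ^ 2 := Nat.one_le_pow _ _ h.C1
  set β := beta H s x R S with hβ
  set Ω : Set V := (ball H x (ρ + 3 * R) : Set V) with hΩ
  set t := (R + 2) / 3 with ht
  have h3t : R ≤ 3 * t := by omega
  have htR : t ≤ R := by omega
  have hβP : ∀ v ∈ P, v ∉ β := by
    intro v hv hvβ
    obtain ⟨y, hy1, hy2⟩ := hy
    have hyx : y ≠ x := by
      rintro rfl
      exact hy2 (self_mem_ball H _ _)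
    have : ∃ v', v' ≠ v := by
      rcases eq_or_ne v x with h' | h'
      · exact ⟨y, by rw [h']; exact hyx⟩
      · exact ⟨x, h'.symm⟩
    obtain ⟨v', hv'⟩ := this
    exact hK v (BC.mono Set.sdiff_subset (hvβ v' hv')) hv
  have hβlong : ∀ w1 ∈ β, ∀ w2 ∈ β, w1 ≠ w2 →
      ∃ l, IsPB G l w1 w2 ∧ (∀ x ∈ l, x ∈ β) ∧ t + 1 ≤ l.length := by
    intro w1 hw1 w2 hw2 h12
    exact beta_long h hμ x R (by omega) S hS hy w1 w2 hw1 hw2 h12
  -- a maximal linkage
  obtain ⟨m, ⟨Q, hQ⟩, hmax⟩ : ∃ m, (∃ Q, Linkage G Ω {v | v ∈ P ∧ v ∈ Ω} β m Q) ∧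
      ¬ ∃ Q, Linkage G Ω {v | v ∈ P ∧ v ∈ Ω} β (m + 1) Q := by
    by_contra hcon
    push Not at hcon
    have hall : ∀ m, ∃ Q, Linkage G Ω {v | v ∈ P ∧ v ∈ Ω} β m Q := by
      intro m
      induction m with
      | zero => exact ⟨fun i => i.elim0, ⟨fun i => i.elim0, fun i => i.elim0⟩⟩
      | succ m ih => exact hcon m ih
    obtain ⟨Q, hQ⟩ := hall (Fintype.card V + 1)
    have := linkage_le hQ
    omega
  -- rerouting
  have hre : (m - 1) * t ≤ cnt H P x (ρ + 4 * R) := by
    have h1 := reroute G P hP β hβP t hβlong Ω m Q hQ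
      (fun i => (ball H x (ρ + 3 * R + i) : Set V))
      (fun i => by
        intro v hv
        exact ball_mono H x (by omega) hv)
      (fun i u hu v huv => by
        have := ball_adj H hu huv
        exact this)
      (fun v _ hv => hv) R
    rw [min_eq_right htR] at h1
    refine h1.trans (le_of_eq ?_)
    unfold cnt
    have e : ρ + 3 * R + R = ρ + 4 * R := by ring
    simp only [e, Finset.mem_coe]
  rcases Nat.lt_or_ge μ (2 * m) with hcase | hcase
  · left
    have h1 : μ ≤ 3 * (m - 1) := by omega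
    calc μ * R ≤ (3 * (m - 1)) * (3 * t) := Nat.mul_le_mul h1 h3t
      _ = 9 * ((m - 1) * t) := by ring
      _ ≤ _ := Nat.mul_le_mul_left _ hre
  · right
    -- the separator
    obtain ⟨X, hXcard, hXsep⟩ : ∃ X : Finset V, X.card ≤ m ∧
        ∀ a ∈ {v | v ∈ P ∧ v ∈ Ω}, ∀ b ∈ β, ¬ Conn G (Ω \ ↑X) a b := by
      by_contra hcon
      push Not at hcon
      apply hmax
      apply menger
      intro X hX
      obtain ⟨a, ha, b, hb, hab⟩ := hcon X (by omega)
      exact ⟨a, ha, b, hb, hab⟩
    have hX1 : 2 * cs (ball H x R) (X : Set V) ≤ μ := by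
      have := cs_le_card (ball H x R) X
      omega
    obtain ⟨w, hwβ, hwBC⟩ := beta_hit h hμ x R (by omega) S X hS hX1
    have hwBC' : BC G (ball H x (2 * s)) (bb H s) (Ω \ ↑X) w := by
      refine BC.mono ?_ hwBC
      intro z hz
      exact ⟨ball_mono H x (by omega) hz.1.1, hz.2⟩
    have hPM : ∀ v ∈ P, v ∈ Ω → v ∉ comp G (Ω \ ↑X) w := by
      intro v hv hvΩ hvM
      exact hXsep v ⟨hv, hvΩ⟩ w hwβ (Conn.symm hvM)
    obtain ⟨ρ', hρ'⟩ : ∃ ρ', ρ + 3 * R = ρ' + 7 * s := ⟨ρ + 3 * R - 7 * s, by omega⟩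
    have hcsX : cs (ball H x (ρ' + 7 * s)) (X : Set V) ≤ m := (cs_le_card _ X).trans hXcard
    have hrest : ((ball H x ρ').filter (fun y => y ∉ comp G (Ω \ ↑X) w)).card ≤
        3 * C ^ 2 * s * m := by
      rw [hΩ, hρ'] at hwBC' ⊢
      refine (rest_small h x ρ' (X : Set V) (hcsX.trans (by omega)) w hwBC').trans ?_
      exact Nat.mul_le_mul_left _ hcsX
    set M := comp G (Ω \ ↑X) w with hM
    -- the small sets
    have hm0 : 0 < m := by
      by_contra hm
      have hm' : m = 0 := by omega
      subst hm'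
      have hX0 : X = ∅ := Finset.card_eq_zero.1 (by omega)
      obtain ⟨v, hvP, hvx⟩ : ∃ v ∈ P, v ∈ ball H x ρ := by
        by_contra hcon
        push Not at hcon
        have : cnt H P x ρ = 0 := by
          unfold cnt
          rw [Finset.card_eq_zero, Finset.filter_eq_empty_iff]
          intro v hv
          exact hcon v (List.mem_toFinset.1 hv)
        omega
      have hvF : v ∈ (ball H x ρ').filter (fun y => y ∉ comp G (Ω \ ↑X) w) := by
        rw [Finset.mem_filter]
        refine ⟨ball_mono H x (by omega) hvx, hPM v hvP ?_⟩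
        exact ball_mono H x (by omega) hvx
      have h1 := Finset.card_pos.2 ⟨v, hvF⟩
      rw [Nat.mul_zero] at hrest
      exact absurd (lt_of_lt_of_le h1 hrest) (lt_irrefl 0)
    set U : ℕ → Finset V := fun j => (ball H x (ρ + j)).filter (fun y => y ∉ M ∧ y ∉ X) with hU
    have hUcard : ∀ j, j ≤ R → (U j).card ≤ 3 * C ^ 2 * s * m := by
      intro j hj
      refine le_trans (Finset.card_le_card ?_) hrest
      intro y hy
      simp only [hU, Finset.mem_filter] at hy ⊢
      exact ⟨ball_mono H x (by omega) hy.1, hy.2.1⟩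
    have hUsub : ∀ j, U j ⊆ U (j + 1) := by
      intro j y hy
      simp only [hU, Finset.mem_filter] at hy ⊢
      exact ⟨ball_mono H x (by omega) hy.1, hy.2⟩
    have hnb : ∀ j, j < R → (Finset.univ.filter (fun y => y ∈ nb G (U j : Set V))).card ≤
        m + ((U (j + 1)).card - (U j).card) := by
      intro j hj
      have hsub : Finset.univ.filter (fun y => y ∈ nb G (U j : Set V)) ⊆
          X ∪ (U (j + 1) \ U j) := by
        intro y hy
        simp only [Finset.mem_filter, Finset.mem_univ, true_and] at hy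
        obtain ⟨hyU, u, huU, huy⟩ := hy
        rw [Finset.mem_union]
        by_cases hyX : y ∈ X
        · left; exact hyX
        · right
          have huU' : u ∈ ball H x (ρ + j) ∧ u ∉ M ∧ u ∉ X := by
            have : u ∈ U j := huU
            simpa only [hU, Finset.mem_filter] using this
          have hyball : y ∈ ball H x (ρ + (j + 1)) := ball_adj H huU'.1 huy
          have hyM : y ∉ M := by
            intro hyM
            apply huU'.2.1
            refine comp_closed hyM ⟨?_, ?_⟩ huy.symm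
            · exact ball_mono H x (by omega) huU'.1
            · exact huU'.2.2
          rw [Finset.mem_sdiff]
          refine ⟨?_, fun hyU' => hyU hyU'⟩
          simp only [hU, Finset.mem_filter]
          exact ⟨hyball, hyM, hyX⟩
      refine (Finset.card_le_card hsub).trans ((Finset.card_union_le _ _).trans ?_)
      rw [Finset.card_sdiff_of_subset (hUsub j)]
      omega
    have hiso : ∀ j, j < R → (U j).card ≤ 2 * s * (m + ((U (j + 1)).card - (U j).card)) := by
      intro j hj
      have h1 : 2 * (U j).card ≤ (bb H s) := by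
        calc 2 * (U j).card ≤ 2 * (3 * C ^ 2 * s * m) := Nat.mul_le_mul_left _ (hUcard j (by omega))
          _ = 6 * C ^ 2 * s * m := by ring
          _ ≤ 64 * C ^ 2 * s * μ := by
              have : m ≤ μ := by omega
              gcongr
              norm_num
          _ ≤ _ := h.mu
      exact (small_iso H (U j) s h1).trans (Nat.mul_le_mul_left _ (hnb j hj))
    have hUiso : (U 0).card ≤ 4 * s * m := by
      by_contra hcon
      rw [not_le] at hcon
      have hge : ∀ j, (U 0).card ≤ (U j).card := by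
        intro j
        induction j with
        | zero => exact le_rfl
        | succ j ih => exact ih.trans (Finset.card_le_card (hUsub j))
      have hgr := growth_seq (4 * s) (by omega) (fun j => (U j).card) R (by
        intro j hj
        have h1 := hiso j hj
        have h2 := hge j
        have h3 := Finset.card_le_card (hUsub j)
        change (4 * s + 1) * (U j).card ≤ 4 * s * (U (j + 1)).card
        obtain ⟨d, hd⟩ := Nat.exists_eq_add_of_le h3
        rw [hd] at h1 ⊢
        rw [Nat.add_sub_cancel_left] at h1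
        nlinarith)
      have h1 := hUcard R le_rfl
      have h2 : 2 ^ (R / (4 * s)) * (4 * s * m) < 3 * C ^ 2 * s * m := by
        refine lt_of_lt_of_le ?_ (hgr.trans h1)
        exact Nat.mul_lt_mul_of_pos_left hcon (by positivity)
      have h3 : 3 * C ^ 2 * s * m ≤ 2 ^ (R / (4 * s)) * (4 * s * m) := by
        calc 3 * C ^ 2 * s * m = C ^ 2 * (3 * s * m) := by ring
          _ ≤ 2 ^ (R / (4 * s)) * (4 * s * m) := by
            gcongr
            norm_num
      omega
    have hcnt : cnt H P x ρ ≤ (4 * s + 1) * m := by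
      have hsub : P.toFinset.filter (fun v => v ∈ ball H x ρ) ⊆ X ∪ U 0 := by
        intro v hv
        simp only [Finset.mem_filter, List.mem_toFinset] at hv
        rw [Finset.mem_union]
        by_cases hvX : v ∈ X
        · left; exact hvX
        · right
          simp only [hU, Finset.mem_filter]
          refine ⟨ball_mono H x (by omega) hv.2, ?_, hvX⟩
          apply hPM v hv.1
          exact ball_mono H x (by omega) hv.2
      unfold cnt
      refine (Finset.card_le_card hsub).trans ((Finset.card_union_le _ _).trans ?_)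
      calc X.card + (U 0).card ≤ m + 4 * s * m := Nat.add_le_add hXcard hUiso
        _ = _ := by ring
    have hm2 : 2 ≤ m := by
      by_contra hm
      have : m ≤ 1 := by omega
      have h1 : (4 * s + 1) * m ≤ (4 * s + 1) * 1 := Nat.mul_le_mul_left _ this
      omega
    have h5 : (4 * s + 1) * m ≤ 5 * s * m := Nat.mul_le_mul_right _ (by omega)
    have h6 : m * R ≤ 6 * ((m - 1) * t) := by
      have : m ≤ 2 * (m - 1) := by omega
      calc m * R ≤ (2 * (m - 1)) * (3 * t) := Nat.mul_le_mul this h3t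
        _ = _ := by ring
    calc R * cnt H P x ρ ≤ R * (5 * s * m) := Nat.mul_le_mul_left _ (hcnt.trans h5)
      _ = 5 * s * (m * R) := by ring
      _ ≤ 5 * s * (6 * ((m - 1) * t)) := Nat.mul_le_mul_left _ h6
      _ = 30 * s * ((m - 1) * t) := by ring
      _ ≤ _ := Nat.mul_le_mul_left _ hre

/-- MAIN LEMMA (section 4) -/
theorem main_lemma (h : Par H s C μ) (hμ : 2 ≤ μ) (R k : ℕ) (hR : 60 * s ≤ R)
    (hRC : C ^ 2 ≤ 2 ^ (R / (4 * s)))
    (hk : Fintype.card V * (30 * s) ^ k < R ^ (k + 1))
    (P : List V) (hP : MaxP G P) (hPR : 2 * R ≤ P.length) (x : V)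
    (hx : ∃ v ∈ P, v ∈ ball H x (R + 1))
    (hy : ∃ y ∈ ball H x (R - 6 * s), y ∉ ball H x (R - 6 * s - 1))
    (S : Set V) (hS : 2 * cs (ball H x R) S ≤ μ)
    (hK : ∀ u, BC G (ball H x (2 * s)) (bb H s) ((ball H x R : Set V) \ S) u → u ∉ P) :
    μ * R ≤ 9 * cnt H P x ((4 * k + 4) * R) := by
  have hs := h.s1
  by_contra hcon
  rw [not_le] at hcon
  have hind : ∀ i, i ≤ k → R ^ (i + 1) ≤ (30 * s) ^ i * cnt H P x ((4 * i + 4) * R) := by
    intro i
    induction i with
    | zero =>
      intro _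
      have h1 := cnt_start H P hP.isP x R (R + 1) hPR hx
      simp only [Nat.mul_zero, Nat.zero_add, pow_one, pow_zero, one_mul]
      refine h1.trans (cnt_mono H P x ?_)
      rcases Nat.eq_zero_or_pos R with h0 | h0
      · omega
      · omega
    | succ i ih =>
      intro hi
      have ih' := ih (by omega)
      have hstart : R ≤ cnt H P x ((4 * i + 4) * R) := by
        have h1 := cnt_start H P hP.isP x R (R + 1) hPR hx
        refine h1.trans (cnt_mono H P x ?_)
        rcases Nat.eq_zero_or_pos R with h0 | h0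
        · omega
        · nlinarith
      have e : (4 * i + 4) * R + 4 * R = (4 * (i + 1) + 4) * R := by ring
      rcases step h hμ R hR hRC P hP x hy S hS hK ((4 * i + 4) * R) (by nlinarith) hstart with h1 | h1
      · exfalso
        rw [e] at h1
        have h2 : cnt H P x ((4 * (i + 1) + 4) * R) ≤ cnt H P x ((4 * k + 4) * R) :=
          cnt_mono H P x (Nat.mul_le_mul_right _ (by omega))
        omega
      · rw [e] at h1
        calc R ^ (i + 1 + 1) = R * R ^ (i + 1) := by ring
          _ ≤ R * ((30 * s) ^ i * cnt H P x ((4 * i + 4) * R)) := Nat.mul_le_mul_left _ ih'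
          _ = (30 * s) ^ i * (R * cnt H P x ((4 * i + 4) * R)) := by ring
          _ ≤ (30 * s) ^ i * (30 * s * cnt H P x ((4 * (i + 1) + 4) * R)) := Nat.mul_le_mul_left _ h1
          _ = _ := by ring
  have h1 := hind k le_rfl
  have h2 : (30 * s) ^ k * cnt H P x ((4 * k + 4) * R) ≤ (30 * s) ^ k * Fintype.card V :=
    Nat.mul_le_mul_left _ (cnt_le P x _)
  have h3 : (30 * s) ^ k * Fintype.card V = Fintype.card V * (30 * s) ^ k := by ring
  omega

end Pool.Agent.Lib.MP_688fd0_co.LPV
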